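import Pool.Agent.Y663.W5.Stm

/-!
# Project W5: the average of a Moebius function over the Cauchy law (helper899)
-/

set_option autoImplicit false

namespace Pool.Agent.Y663.W5

open MeasureTheory Filter Pool.Agent.W792.LL Pool.Agent.W792.WA
open scoped Topology

/-- numerator -/
noncomputable def circ_A (γ : ℝ) (x w : ℂ) : ℂ :=
  (x + Complex.I) * (1 - w) - Complex.I * γ * (1 + w)

/-- denominator -/
noncomputable def circ_B (γ : ℝ) (x w : ℂ) : ℂ :=
  (x - Complex.I) * (1 - w) - Complex.I * γ * (1 + w)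

/-- the quotient -/
noncomputable def circ_F (γ : ℝ) (x s w : ℂ) : ℂ :=
  circ_A γ x w / (circ_B γ x w - s * circ_A γ x w)

theorem circ_normSq (γ : ℝ) (x w : ℂ) :
    Complex.normSq (circ_B γ x w) - Complex.normSq (circ_A γ x w) =
      -4 * x.im * Complex.normSq (1 - w) + 4 * γ * (1 - Complex.normSq w) := by
  unfold circ_A circ_B
  simp only [Complex.normSq_apply, Complex.sub_re, Complex.sub_im, Complex.add_re, Complex.add_im,
    Complex.mul_re, Complex.mul_im, Complex.I_re, Complex.I_im, Complex.one_re, Complex.one_im,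
    Complex.ofReal_re, Complex.ofReal_im]
  ring

theorem circ_ne {γ : ℝ} {x s : ℂ} (hγ : 0 < γ) (hx : x.im < 0) (hs : ‖s‖ < 1) {w : ℂ}
    (hw : ‖w‖ ≤ 1) : circ_B γ x w - s * circ_A γ x w ≠ 0 := by
  have h1 := circ_normSq γ x w
  have h2 : Complex.normSq w ≤ 1 := by
    rw [Complex.normSq_eq_norm_sq]
    exact pow_le_one₀ (norm_nonneg _) hw
  have h3 := Complex.normSq_nonneg (1 - w)
  have h4 : Complex.normSq (circ_A γ x w) ≤ Complex.normSq (circ_B γ x w) := by
    have h5 : 0 ≤ -4 * x.im * Complex.normSq (1 - w) := mul_nonneg (by linarith) h3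
    have h6 : 0 ≤ 4 * γ * (1 - Complex.normSq w) := mul_nonneg (by linarith) (by linarith)
    linarith
  have h5 : ‖circ_A γ x w‖ ≤ ‖circ_B γ x w‖ := by
    rw [Complex.normSq_eq_norm_sq, Complex.normSq_eq_norm_sq] at h4
    exact (pow_le_pow_iff_left₀ (norm_nonneg _) (norm_nonneg _) two_ne_zero).1 h4
  have hB : circ_B γ x w ≠ 0 := by
    intro h0
    have hA : circ_A γ x w = 0 := by
      rw [h0, norm_zero] at h5
      exact norm_le_zero_iff.1 h5
    have h6 : circ_A γ x w - circ_B γ x w = 2 * Complex.I * (1 - w) := by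
      unfold circ_A circ_B
      ring
    rw [hA, h0, sub_zero] at h6
    have h7 : 1 - w = 0 := by
      rcases mul_eq_zero.1 h6.symm with h8 | h8
      · exact absurd h8 (mul_ne_zero two_ne_zero Complex.I_ne_zero)
      · exact h8
    have h8 : w = 1 := (sub_eq_zero.1 h7).symm
    rw [h8] at h0
    unfold circ_B at h0
    have h9 : Complex.I * (γ : ℂ) * 2 = 0 := by linear_combination -h0
    rcases mul_eq_zero.1 h9 with h10 | h10
    · rcases mul_eq_zero.1 h10 with h11 | h11
      · exact Complex.I_ne_zero h11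
      · exact hγ.ne' (by exact_mod_cast h11)
    · exact two_ne_zero h10
  intro h0
  have h6 : circ_B γ x w = s * circ_A γ x w := sub_eq_zero.1 h0
  have hBpos : 0 < ‖circ_B γ x w‖ := norm_pos_iff.2 hB
  have h7 : ‖circ_B γ x w‖ = ‖s‖ * ‖circ_A γ x w‖ := by rw [← norm_mul, ← h6]
  have h8 : ‖s‖ * ‖circ_A γ x w‖ ≤ ‖s‖ * ‖circ_B γ x w‖ :=
    mul_le_mul_of_nonneg_left h5 (norm_nonneg _)
  nlinarith

theorem circ_avg {γ : ℝ} {x s : ℂ} (hγ : 0 < γ) (hx : x.im < 0) (hs : ‖s‖ < 1) :
    ∫ φ in (0 : ℝ)..1, circ_F γ x s (Complex.exp ((2 * Real.pi * φ : ℝ) * Complex.I)) =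
      circ_F γ x s 0 := by
  have hd : DiffContOnCl ℂ (circ_F γ x s) (Metric.ball 0 |1|) := by
    apply DifferentiableOn.diffContOnCl
    intro z hz
    have hz1 : ‖z‖ ≤ 1 := by
      have h1 := Metric.closure_ball_subset_closedBall hz
      rw [abs_one] at h1
      exact mem_closedBall_zero_iff.1 h1
    apply DifferentiableAt.differentiableWithinAt
    unfold circ_F circ_A circ_B
    apply DifferentiableAt.div (by fun_prop) (by fun_prop)
    exact circ_ne hγ hx hs hz1
  have h1 := hd.circleAverage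
  rw [Real.circleAverage_def] at h1
  have h2 := intervalIntegral.smul_integral_comp_mul_left (a := 0) (b := 1)
    (f := fun θ : ℝ => circ_F γ x s (circleMap 0 1 θ)) (2 * Real.pi)
  have hpi : (2 * Real.pi) ≠ 0 := by positivity
  rw [mul_zero, mul_one] at h2
  rw [← h1, ← h2, smul_smul, inv_mul_cancel₀ hpi, one_smul]
  refine intervalIntegral.integral_congr fun φ _ => ?_
  show circ_F γ x s (Complex.exp ((2 * Real.pi * φ : ℝ) * Complex.I)) =
    circ_F γ x s (circleMap 0 1 (2 * Real.pi * φ))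
  rw [circleMap, zero_add, Complex.ofReal_one, one_mul]

theorem circ_point {γ : ℝ} {x s : ℂ} (hx : x.im < 0) {φ : ℝ} (h0 : 0 < φ) (h1 : φ < 1) :
    cayx x (γ * ct φ) / (1 - cayx x (γ * ct φ) * s) =
      circ_F γ x s (Complex.exp ((2 * Real.pi * (1 - φ) : ℝ) * Complex.I)) := by
  set c : ℝ := Real.cos (Real.pi * φ) with hc
  set σ : ℝ := Real.sin (Real.pi * φ) with hσ
  have hσ0 : σ ≠ 0 := by
    have : 0 < Real.sin (Real.pi * φ) := by
      apply Real.sin_pos_of_pos_of_lt_pi
      · have := Real.pi_pos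
        positivity
      · have := Real.pi_pos
        nlinarith
    exact this.ne'
  have hσ1 : (σ : ℂ) ≠ 0 := by exact_mod_cast hσ0
  have hcs : (c : ℂ) ^ 2 + (σ : ℂ) ^ 2 = 1 := by
    have := Real.cos_sq_add_sin_sq (Real.pi * φ)
    exact_mod_cast this
  set e : ℂ := c - σ * Complex.I with he
  have hw : Complex.exp ((2 * Real.pi * (1 - φ) : ℝ) * Complex.I) = e ^ 2 := by
    have h2 : ((2 * Real.pi * (1 - φ) : ℝ) : ℂ) * Complex.I =
        2 * Real.pi * Complex.I + 2 * ((-(Real.pi * φ) : ℝ) * Complex.I) := by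
      push_cast
      ring
    rw [h2, Complex.exp_add, Complex.exp_two_pi_mul_I, one_mul, two_mul, Complex.exp_add, ← sq]
    congr 1
    rw [Complex.exp_mul_I, ← Complex.ofReal_cos, ← Complex.ofReal_sin, Real.cos_neg,
      Real.sin_neg]
    push_cast
    rw [he]
    simp only [hc, hσ]
    push_cast
    ring
  have he0 : e ≠ 0 := by
    intro h
    have h2 : (c : ℂ) ^ 2 + (σ : ℂ) ^ 2 = e * (c + σ * Complex.I) := by
      rw [he]
      ring_nf
      rw [Complex.I_sq]
      ring
    rw [hcs, h, zero_mul] at h2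
    exact one_ne_zero h2
  have hI : Complex.I ^ 2 = -1 := Complex.I_sq
  have hA1 : 1 - e ^ 2 = 2 * Complex.I * σ * e := by
    rw [he]
    linear_combination -hcs + (-(σ : ℂ) ^ 2 + 2 * (σ : ℂ) ^ 2) * hI
  have hA2 : 1 + e ^ 2 = 2 * c * e := by
    rw [he]
    linear_combination -hcs + ((σ : ℂ) ^ 2) * hI
  set y : ℂ := x + ((γ * ct φ : ℝ) : ℂ) with hy
  have hyt : y * σ = x * σ - γ * c := by
    rw [hy, ct]
    push_cast
    simp only [hc, hσ] at hσ1 ⊢
    push_cast at hσ1 ⊢
    field_simp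
    ring
  have hyim : y.im < 0 := by
    rw [hy, Complex.add_im, Complex.ofReal_im, add_zero]
    exact hx
  have hyI : y - Complex.I ≠ 0 := by
    intro h
    have := congrArg Complex.im h
    rw [Complex.sub_im, Complex.I_im, Complex.zero_im] at this
    linarith
  rw [hw]
  have hAe : circ_A γ x (e ^ 2) = 2 * Complex.I * e * σ * (y + Complex.I) := by
    unfold circ_A
    rw [hA1, hA2]
    linear_combination (-2 * Complex.I * e) * hyt
  have hBe : circ_B γ x (e ^ 2) = 2 * Complex.I * e * σ * (y - Complex.I) := by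
    unfold circ_B
    rw [hA1, hA2]
    linear_combination (-2 * Complex.I * e) * hyt
  have hk : 2 * Complex.I * e * σ ≠ 0 :=
    mul_ne_zero (mul_ne_zero (mul_ne_zero two_ne_zero Complex.I_ne_zero) he0) hσ1
  unfold circ_F cayx
  rw [hAe, hBe, ← hy]
  have h3 : 2 * Complex.I * e * σ * (y - Complex.I) -
      s * (2 * Complex.I * e * σ * (y + Complex.I)) =
      2 * Complex.I * e * σ * ((y - Complex.I) - s * (y + Complex.I)) := by ring
  rw [h3, mul_div_mul_left _ _ hk]
  have h4 : (1 : ℂ) - (y + Complex.I) / (y - Complex.I) * s =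
      ((y - Complex.I) - s * (y + Complex.I)) / (y - Complex.I) := by
    rw [sub_div, div_self hyI]
    ring
  rw [h4, div_div_div_cancel_right₀ hyI]

theorem circ : S_CIRC := by
  intro γ x s hγ hx hs
  have h1 : ∫ φ in Set.Ioc (0 : ℝ) 1, cayx x (γ * ct φ) / (1 - cayx x (γ * ct φ) * s) =
      ∫ φ in Set.Ioc (0 : ℝ) 1,
        circ_F γ x s (Complex.exp ((2 * Real.pi * (1 - φ) : ℝ) * Complex.I)) := by
    rw [integral_Ioc_eq_integral_Ioo, integral_Ioc_eq_integral_Ioo]
    exact setIntegral_congr_fun measurableSet_Ioo fun φ hφ => circ_point hx hφ.1 hφ.2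
  rw [h1, ← intervalIntegral.integral_of_le zero_le_one]
  have h2 := intervalIntegral.integral_comp_sub_left (a := 0) (b := 1)
    (fun φ : ℝ => circ_F γ x s (Complex.exp ((2 * Real.pi * φ : ℝ) * Complex.I))) 1
  rw [sub_self, sub_zero] at h2
  rw [h2, circ_avg hγ hx hs]
  unfold circ_F circ_A circ_B cayx
  have him : (x - γ * Complex.I - Complex.I) ≠ 0 := by
    intro h
    have := congrArg Complex.im h
    simp only [Complex.sub_im, Complex.mul_im, Complex.ofReal_re, Complex.ofReal_im,
      Complex.I_re, Complex.I_im, Complex.zero_im] at this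
    linarith
  simp only [Complex.ofReal_zero, add_zero]
  have h4 : (1 : ℂ) - (x - γ * Complex.I + Complex.I) / (x - γ * Complex.I - Complex.I) * s =
      ((x - γ * Complex.I - Complex.I) - s * (x - γ * Complex.I + Complex.I)) /
        (x - γ * Complex.I - Complex.I) := by
    rw [sub_div, div_self him]
    ring
  rw [h4, div_div_div_cancel_right₀ him]
  congr 1 <;> ring

end Pool.Agent.Y663.W5
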