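import Pool.Agent.W792.WA.Stm5

/-!
# Project W5: absolutely continuous spectrum at arbitrary disorder

Statements. The kinetic energy is changed by a function `g(-Δ)` small in `L^p`, `p < 2`. The first
level has almost a Cauchy law (of small width `γ`), which produces a uniform absorption; all the
other levels are small.
-/

set_option autoImplicit false

namespace Pool.Agent.Y663.W5

open MeasureTheory Filter Pool.Agent.W792.LL Pool.Agent.W792.WA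
open scoped Topology

noncomputable section

/-- `tan (π (φ - 1/2))`: for `φ` uniform in `(0, 1]` it has the Cauchy law. -/
def ct (φ : ℝ) : ℝ := -(Real.cos (Real.pi * φ) / Real.sin (Real.pi * φ))

/-- Average over the Cauchy law. -/
def S_CIRC : Prop :=
  ∀ (γ : ℝ) (x s : ℂ), 0 < γ → x.im < 0 → ‖s‖ < 1 →
    ∫ φ in Set.Ioc (0 : ℝ) 1, cayx x (γ * ct φ) / (1 - cayx x (γ * ct φ) * s)
      = cayx (x - γ * Complex.I) 0 / (1 - cayx (x - γ * Complex.I) 0 * s)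

/-- Hölder continuous functions on the circle. -/
def Hol (ψ : C(UnitAddCircle, ℝ)) : Prop :=
  ∃ C : ℝ, ∀ s t : ℝ, |ψ (s : UnitAddCircle) - ψ (t : UnitAddCircle)| ≤ C * |s - t| ^ (2 / 3 : ℝ)

/-- Level functions with law close to the Cauchy law. -/
def S_TAN5 : Prop :=
  ∀ γ τ : ℝ, 0 < γ → 0 < τ → τ ≤ 1 / 2 → ∃ (ψ : C(UnitAddCircle, ℝ)) (R : ℝ), IsLv ψ ∧ Hol ψ ∧
    0 < R ∧
    (∀ φ : ℝ, τ / 2 ≤ φ → φ ≤ 1 - τ / 2 → R * ψ (φ : UnitAddCircle) = γ * ct φ) ∧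
    ∀ p : ℝ, 1 < p → p < 2 → ∫ φ in Set.Ioc (0 : ℝ) 1, |R * ψ (φ : UnitAddCircle)| ^ p
      ≤ 4 * γ ^ p * τ ^ (1 - p) / (p - 1)

/-- The first level: uniform absorption. -/
def S_LEV5 : Prop :=
  ∀ p κ D ε : ℝ, 1 < p → p < 2 → 0 < κ → κ ≤ 1 → 0 < ε →
    ∃ (ψ : C(UnitAddCircle, ℝ)) (R η q : ℝ), IsLv ψ ∧ Hol ψ ∧ 0 < R ∧ 0 < η ∧ η < 1 ∧ 0 ≤ q ∧
      q < 1 ∧ η ≤ (1 - q ^ 2) * κ / 8 ∧
      (∫ φ in Set.Ioc (0 : ℝ) 1, |R * ψ (φ : UnitAddCircle)| ^ p ≤ ε) ∧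
      ∀ (ρ' : Measure ℝ) [IsProbabilityMeasure ρ'], ρ' (Set.Icc (-1) 1)ᶜ = 0 →
        ∀ x s : ℂ, ‖x‖ ≤ D → x.im < 0 → ‖s‖ ≤ 1 - η →
          ‖Us ((lev ψ R).conv ρ') (cayx x) s‖ ≤ q

/-- Gap for all laws with enough variance. -/
def S_GAP5 : Prop :=
  ∀ p κ D ε : ℝ, 1 < p → p < 2 → 0 < κ → κ ≤ 1 → 0 < ε →
    ∃ (ψ : C(UnitAddCircle, ℝ)) (R η : ℝ), IsLv ψ ∧ Hol ψ ∧ 0 < R ∧ 0 < η ∧
      (∫ φ in Set.Ioc (0 : ℝ) 1, |R * ψ (φ : UnitAddCircle)| ^ p ≤ ε) ∧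
      ∀ (ν : Measure ℝ) [IsProbabilityMeasure ν] (d : ℕ) (K : C(UnitAddTorus (Fin d), ℝ)) (z : ℂ)
        (ρ' : Measure ℝ) [IsProbabilityMeasure ρ'], κ ≤ vr ν → ρ' (Set.Icc (-1) 1)ᶜ = 0 →
        ‖K‖ + ‖z‖ ≤ D → 0 < z.im → ∀ s : C(UnitAddTorus (Fin d), ℂ),
        IsFix ν ((lev ψ R).conv ρ') (wz K z) s → ‖s‖ ≤ 1 - η

end

end Pool.Agent.Y663.W5
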