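import Pool.Agent.W792.WA.G16
import Pool.Agent.Y663.W5.Step2L
import Pool.Agent.Y663.W5.Stm

/-!
The chain of small levels over a class of laws with a uniform gap (adaptation of
Pool.Agent.W792.WA.G11 and G15: one class, no lower bound `J`).
-/

set_option autoImplicit false

namespace Pool.Agent.Y663.W5.Ch5

open MeasureTheory Filter Pool.Agent.W792.LL Pool.Agent.W792.WA Pool.Agent.W792.WA.Ch
  Pool.Agent.W792.WA.ChK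
open scoped Topology

noncomputable section

/-- Invariant of stage `n`. -/
def Inv5 {d : ℕ} (K : C(UnitAddTorus (Fin d), ℝ)) (𝓧 : Set MX) (ρ : ℕ → Measure ℝ) (T : ℕ → ℝ)
    (σ : ℝ) (n : ℕ) (a : C(ℝ, ℝ) × ℝ) : Prop :=
  (∀ t, |a.1 t| ≤ T 0 - T n) ∧
  (∀ X ∈ 𝓧, GapK (qlaw X) (ρ n) (kg K a.1) (σ * (1 / 2 + 1 / 2 ^ (n + 1)))) ∧ 0 < a.2 ∧
  ∃ q : ℝ, 0 ≤ q ∧ q < 1 ∧ a.2 ≤ (1 - q ^ 2) / 8 ∧ ∀ X ∈ 𝓧, CtrK (qlaw X) (ρ n) (kg K a.1) q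

/-- Relation of two stages. -/
def Rel5 {d : ℕ} (K : C(UnitAddTorus (Fin d), ℝ)) (𝓧 : Set MX) (ψ : C(UnitAddCircle, ℝ))
    (l : ℕ → ℝ) (ρ : ℕ → Measure ℝ) (n : ℕ) (a b : C(ℝ, ℝ) × ℝ) : Prop :=
  (∃ M : ℕ, b.1 = nx ψ a.1 (l n) M) ∧ b.2 ≤ a.2 ∧ ∀ X ∈ 𝓧, ∀ z ∈ Zs d, ∀ s s',
    IsFix (qlaw X) (ρ n) (wz (kg K a.1) z) s →
    IsFix (qlaw X) (ρ (n + 1)) (wz (kg K b.1) z) s' →
      ∫ v, ‖Zf (UU (ρ n) (wz (kg K a.1) z) s) (fun x => cay (v x))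
        - Zf (UU (ρ (n + 1)) (wz (kg K b.1) z) s') (fun x => cay (v x))‖
          ∂(Pn (qlaw X) (Fin d → ℤ)) ≤ a.2 / (64 * 8 ^ n)

/-- Data fixed in advance. -/
structure Pr5 {d : ℕ} (K : C(UnitAddTorus (Fin d), ℝ)) (𝓧 : Set MX) (ψ : C(UnitAddCircle, ℝ))
    where
  /-- levels -/
  l : ℕ → ℝ
  /-- laws of the future levels -/
  ρ : ℕ → Measure ℝ
  /-- tails -/
  T : ℕ → ℝ
  /-- gap -/
  σ : ℝ
  hψ : ∀ t, |ψ t| ≤ 1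
  hl : ∀ n, 0 < l n
  hT : ∀ n, l n + T (n + 1) ≤ T n
  hTp : ∀ n, 0 ≤ T n
  hρ1 : ∀ n, IsProbabilityMeasure (ρ n)
  hρ2 : ∀ n, ρ n = (lev ψ (l n)).conv (ρ (n + 1))
  hρ3 : ∀ n, ρ n (Set.Icc (-(T n)) (T n))ᶜ = 0
  hρ4 : ∀ (n : ℕ) (a b : ℝ), ρ n {a, b} < 1
  hσ : 0 < σ
  hX : ∀ X ∈ 𝓧, 0 < vr (qlaw X)
  hTB : TB 𝓧
  hgap : ∀ X ∈ 𝓧, GapK (qlaw X) (ρ 0) K σ

namespace Pr5

variable {d : ℕ} {K : C(UnitAddTorus (Fin d), ℝ)} {𝓧 : Set MX} {ψ : C(UnitAddCircle, ℝ)}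
  (D : Pr5 K 𝓧 ψ)

/-- Uniform gap. -/
theorem ugap {n : ℕ} {f : C(ℝ, ℝ)}
    (h : ∀ X ∈ 𝓧, GapK (qlaw X) (D.ρ n) (kg K f) (D.σ * (1 / 2 + 1 / 2 ^ (n + 1)))) :
    ∀ X ∈ 𝓧, GapK (qlaw X) (D.ρ n) (kg K f) (D.σ / 2) := by
  intro X hX z hz s hs
  have h3 := h X hX z hz s hs
  have h5 : 0 < D.σ * (1 / 2 ^ (n + 1)) := by
    have := D.hσ
    positivity
  linarith

theorem ctr (hU2 : S_UNI2) {n : ℕ} {f : C(ℝ, ℝ)}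
    (h : ∀ X ∈ 𝓧, GapK (qlaw X) (D.ρ n) (kg K f) (D.σ * (1 / 2 + 1 / 2 ^ (n + 1)))) :
    ∃ q : ℝ, 0 ≤ q ∧ q < 1 ∧ ∀ X ∈ 𝓧, CtrK (qlaw X) (D.ρ n) (kg K f) q := by
  have h2 := D.ugap h
  have := D.hρ1 n
  obtain ⟨q, h3, h4, h5⟩ := (hU2 d (D.ρ n) (D.T n) (D.σ / 2) (kg K f) (D.hρ3 n) (D.hρ4 n)
    (half_pos D.hσ)).1
  exact ⟨q, h3, h4, fun X hX => (h5 (qlaw X) (D.hX X hX) (h2 X hX)).2⟩

theorem init (hU2 : S_UNI2) : ∃ a, Inv5 K 𝓧 D.ρ D.T D.σ 0 a ∧ (0 = 0 → a.1 = 0) := by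
  have h0 : ∀ X ∈ 𝓧, GapK (qlaw X) (D.ρ 0) (kg K 0) (D.σ * (1 / 2 + 1 / 2 ^ (0 + 1))) := by
    intro X hX
    rw [kg_zero]
    have e : D.σ * (1 / 2 + 1 / 2 ^ (0 + 1)) = D.σ := by ring
    rw [e]
    exact D.hgap X hX
  obtain ⟨q, hq0, hq1, hq2⟩ := D.ctr hU2 h0
  have hq3 : 0 < (1 - q ^ 2) / 8 := by
    have : q ^ 2 < 1 := by nlinarith
    linarith
  exact ⟨(0, (1 - q ^ 2) / 8), ⟨fun t => by simp, h0, hq3, q, hq0, hq1, le_rfl,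
    hq2⟩, fun _ => rfl⟩

theorem step (hU2 : S_UNI2) (hS2 : S_STEP2) (hd : 0 < d)
    (hψ : IsSemi ψ) (n : ℕ) (a : C(ℝ, ℝ) × ℝ) (ha : Inv5 K 𝓧 D.ρ D.T D.σ n a) :
    ∃ b, Inv5 K 𝓧 D.ρ D.T D.σ (n + 1) b ∧ Rel5 K 𝓧 ψ D.l D.ρ n a b := by
  obtain ⟨h0, h1, h3, -⟩ := ha
  have hσ2 := D.ugap h1
  have hσ := half_pos D.hσ
  have i0 := D.hρ1 n
  have i1 := D.hρ1 (n + 1)
  set e : ℝ := min (a.2 / (64 * 8 ^ n)) (D.σ / 2 / 2 ^ (n + 1)) with he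
  have he0 : 0 < e := lt_min (by positivity) (by positivity)
  have hσ2' : ∀ X ∈ 𝓧, ∀ z ∈ Zs d, ∀ s,
      IsFix (qlaw X) ((lev ψ (D.l n)).conv (D.ρ (n + 1))) (wz (kg K a.1) z) s →
        ‖s‖ ≤ 1 - D.σ / 2 := by
    rw [← D.hρ2 n]; exact hσ2
  obtain ⟨M, hM⟩ := hS2 d ψ (D.ρ (n + 1)) (D.T (n + 1)) (D.σ / 2) (D.l n) (kg K a.1) 𝓧 hd hψ
    D.hX D.hTB (D.hρ3 (n + 1)) (D.hρ4 (n + 1)) (D.hl n)
    hσ hσ2' e he0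
  have hM1 := hM M le_rfl
  rw [← D.hρ2 n, ← kg_nx] at hM1
  have hid : ∀ t, |nx ψ a.1 (D.l n) M t| ≤ D.T 0 - D.T (n + 1) := by
    intro t
    have h4 := h0 t
    have h5 := D.hT n
    have h6 : |D.l n * ψ ((M * t / (2 * Real.pi) : ℝ) : UnitAddCircle)| ≤ D.l n := by
      rw [abs_mul, abs_of_pos (D.hl n)]
      exact mul_le_of_le_one_right (D.hl n).le (D.hψ _)
    change |a.1 t + D.l n * ψ _| ≤ _
    refine (abs_add_le _ _).trans ?_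
    linarith
  have hgap : ∀ X ∈ 𝓧, GapK (qlaw X) (D.ρ (n + 1))
      (kg K (nx ψ a.1 (D.l n) M)) (D.σ * (1 / 2 + 1 / 2 ^ (n + 1 + 1))) := by
    intro X hX z hz s' hs'
    have hex := ((hU2 d (D.ρ n) (D.T n) (D.σ / 2) (kg K a.1) (D.hρ3 n) (D.hρ4 n)
      hσ).1.choose_spec.2.2 (qlaw X) (D.hX X hX) (hσ2 X hX)).1 z hz
    obtain ⟨s, hs, -⟩ := hex
    have h4 := (hM1 X hX z hz s s' hs hs').1
    have h5 := h1 X hX z hz s hs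
    have h6 : ‖s'‖ ≤ ‖s‖ + ‖s - s'‖ := by
      have := norm_sub_le s (s - s')
      rwa [sub_sub_cancel] at this
    have h7 : e ≤ D.σ / 2 / 2 ^ (n + 1) := min_le_right _ _
    have h9 : D.σ * (1 / 2 + 1 / 2 ^ (n + 1)) = D.σ * (1 / 2 + 1 / 2 ^ (n + 1 + 1))
        + D.σ / 2 / 2 ^ (n + 1) := by
      field_simp
      ring
    linarith
  obtain ⟨q, hq0, hq1, hq2⟩ := D.ctr hU2 hgap
  have hq3 : 0 < (1 - q ^ 2) / 8 := by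
    have : q ^ 2 < 1 := by nlinarith
    linarith
  refine ⟨(nx ψ a.1 (D.l n) M, min a.2 ((1 - q ^ 2) / 8)), ⟨hid, hgap, lt_min h3 hq3,
    q, hq0, hq1, min_le_right _ _, hq2⟩, ⟨M, rfl⟩, min_le_left _ _, ?_⟩
  intro X hX z hz s s' hs hs'
  exact (hM1 X hX z hz s s' hs hs').2.trans (min_le_left _ _)

end Pr5

/-- The main construction. -/
theorem exists_f5 (hXX : S_CX) (hUU : S_UUC) (hL : S_SCL) (hZ : S_ZF) (hCay : S_CAY)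
    (hM : S_MZP) (hU : S_UNI) (hU2 : S_UNI2) (hS2 : S_STEP2)
    {d : ℕ} (hd : 0 < d) {K : C(UnitAddTorus (Fin d), ℝ)} {𝓧 : Set MX} {ψ : C(UnitAddCircle, ℝ)}
    (hψ : IsSemi ψ) {r : ℝ} (D : Pr5 K 𝓧 ψ) (hDT : D.T = fun n => 2 * r * (1 / 16) ^ n) :
    ∃ f : C(ℝ, ℝ), IsSum ψ (2 * r) f ∧ ∀ X ∈ 𝓧, MestK (kg K f) (qlaw X) := by
  obtain ⟨x, hx⟩ := exists_seq (α := C(ℝ, ℝ) × ℝ)
    (fun n a => Inv5 K 𝓧 D.ρ D.T D.σ n a ∧ (n = 0 → a.1 = 0))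
    (fun n a b => Rel5 K 𝓧 ψ D.l D.ρ n a b) (D.init hU2) (by
      intro n a ha
      obtain ⟨b, hb1, hb2⟩ := D.step hU2 hS2 hd hψ n a ha.1
      exact ⟨b, ⟨hb1, fun h => absurd h (Nat.succ_ne_zero n)⟩, hb2⟩)
  have hMe : ∀ n, ∃ M : ℕ, (x (n + 1)).1 = nx ψ (x n).1 (D.l n) M := fun n => (hx n).2.1
  choose M hMe using hMe
  have hq : ∀ n, ∃ q : ℝ, 0 ≤ q ∧ q < 1 ∧ (x n).2 ≤ (1 - q ^ 2) / 8 ∧
      ∀ X ∈ 𝓧, CtrK (qlaw X) (D.ρ n) (kg K (x n).1) q := fun n => (hx n).1.1.2.2.2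
  choose q hq0 hq1 hq2 hq3 using hq
  let L : LvK ψ := {
    l := D.l, T := D.T, f := fun n => (x n).1, M := M
    hψ := hψ.bound
    hl := D.hl
    hT := D.hT
    hTp := D.hTp
    f0 := (hx 0).1.2 rfl
    fs := hMe }
  have hT0 : D.T 0 = 2 * r := by rw [hDT]; simp
  have hTt : Tendsto D.T atTop (𝓝 0) := by
    rw [hDT]
    have h1 := (tendsto_pow_atTop_nhds_zero_of_lt_one (by norm_num : (0 : ℝ) ≤ 1 / 16)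
      (by norm_num : (1 : ℝ) / 16 < 1)).const_mul (2 * r)
    simpa using h1
  have hsumle : ∑' j, L.l j ≤ 2 * r := by
    refine Real.tsum_le_of_sum_range_le (fun n => (L.hl n).le) fun m => ?_
    have h1 := L.sum_l 0 m
    have h2 := L.hTp (0 + m)
    simp only [zero_add] at h1 h2
    have h3 : L.T 0 = 2 * r := hT0
    linarith
  refine ⟨L.fI, ⟨L.l, L.M, fun j => (L.hl j).le, L.summable_l, hsumle, fun t => rfl⟩,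
    fun X hX => ?_⟩
  let E : CEK (qlaw X) K := {
    ρ := D.ρ
    T := D.T
    σ := D.σ / 2
    f := fun n => (x n).1
    fI := L.fI
    B := D.T 0
    p := fun n => (x n).2
    q := q
    hv := D.hX X hX
    T_anti := L.T_anti
    hTp := D.hTp
    hT0 := hTt
    hρ1 := D.hρ1
    hρ3 := D.hρ3
    hρ4 := D.hρ4
    hσ := half_pos D.hσ
    gap := fun n => D.ugap (hx n).1.1.2.1 X hX
    hp := fun n => (hx n).1.1.2.2.1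
    anti := fun n => (hx n).2.2.1
    hq0 := hq0
    hq1 := hq1
    hq2 := hq2
    ctr := fun n => hq3 n X hX
    fI_diff := L.fI_diff
    fI_id := L.fI_id
    f_id := L.f_id
    rel := fun n z hz s s' hs hs' => (hx n).2.2.2 X hX z hz s s' hs hs' }
  exact E.concl hXX hUU hL hZ hCay hM hU

end

end Pool.Agent.Y663.W5.Ch5
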