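import Pool.Agent.Y663.W5.Stm
import Pool.Agent.W792.WA.Stm6

/-!
# Project W5: statements, second part
-/

set_option autoImplicit false

namespace Pool.Agent.Y663.W5

open MeasureTheory Filter Pool.Agent.W792.LL Pool.Agent.W792.WA
open scoped Topology

noncomputable section

/-- One level, as a function of the energy. -/
def lv0 (ψ : C(UnitAddCircle, ℝ)) (R : ℝ) (M : ℕ) : C(ℝ, ℝ) where
  toFun t := R * ψ ((M * t / (2 * Real.pi) : ℝ) : UnitAddCircle)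
  continuous_toFun := by
    have h : Continuous fun t : ℝ => ((M * t / (2 * Real.pi) : ℝ) : UnitAddCircle) :=
      (AddCircle.continuous_mk' (1 : ℝ)).comp (by fun_prop)
    exact continuous_const.mul (ψ.continuous.comp h)

/-- Size of a first level plus a sum of small levels. -/
def S_SIZE5 : Prop :=
  ∀ (d : ℕ) (ψ₀ ψ : C(UnitAddCircle, ℝ)) (R p ε : ℝ), 0 < d → (∀ t, |ψ₀ t| ≤ 1) → Hol ψ₀ →
    (∀ t, |ψ t| ≤ 1) → Hol ψ → 0 < R → 1 < p → p < 2 → 0 < ε →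
    (∫ φ in Set.Ioc (0 : ℝ) 1, |R * ψ₀ (φ : UnitAddCircle)| ^ p ≤ ε / 16) →
    ∃ (M₁ : ℕ) (ε₁ : ℝ), 0 < ε₁ ∧ ε₁ ≤ 1 / 2 ∧ ∀ (M : ℕ) (g : C(ℝ, ℝ)), M₁ ≤ M → IsSum ψ ε₁ g →
      (∀ t, |(lv0 ψ₀ R M + g) t| ≤ R + 1) ∧
      (∃ C : ℝ, ∀ x : Fin d → ℤ, ‖UnitAddTorus.mFourierCoeff (fun k : UnitAddTorus (Fin d) =>
        (((lv0 ψ₀ R M + g) (lap d k) : ℝ) : ℂ)) x‖ ≤ C / (1 + ‖x‖) ^ ((d : ℝ) / 3)) ∧
      ∫ k : UnitAddTorus (Fin d), |(lv0 ψ₀ R M + g) (lap d k)| ^ p ≤ ε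

/-- Normalized theorem. -/
def S_N5 : Prop :=
  ∀ (d : ℕ) (K : C(UnitAddTorus (Fin d), ℝ)) (p κ ε : ℝ), 0 < d → 1 < p → p < 2 → 0 < κ → 0 < ε →
    ∃ g : C(ℝ, ℝ), (∃ B : ℝ, ∀ t, |g t| ≤ B) ∧
      (∃ C : ℝ, ∀ x : Fin d → ℤ, ‖UnitAddTorus.mFourierCoeff (fun k : UnitAddTorus (Fin d) =>
        ((g (lap d k) : ℝ) : ℂ)) x‖ ≤ C / (1 + ‖x‖) ^ ((d : ℝ) / 3)) ∧
      (∫ k : UnitAddTorus (Fin d), |g (lap d k)| ^ p ≤ ε) ∧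
    ∀ (ν : Measure ℝ) [IsProbabilityMeasure ν] (lam : ℝ), 0 < lam →
      κ ≤ vr (ν.map fun x => lam * x) →
      ∀ᵐ v ∂(Pn ν (Fin d → ℤ)), ACIK (K + gK g d) lam v 0 (4 * d)

/-- The theorem at arbitrary disorder. -/
def S_F5 : Prop :=
  ∀ (d : ℕ) (K : C(UnitAddTorus (Fin d), ℝ)) (a b p κ ε : ℝ), 0 < d → a < b → 1 < p → p < 2 →
    0 < κ → 0 < ε → ∃ g : C(ℝ, ℝ), (∃ B : ℝ, ∀ t, |g t| ≤ B) ∧
      (∃ C : ℝ, ∀ x : Fin d → ℤ, ‖UnitAddTorus.mFourierCoeff (fun k : UnitAddTorus (Fin d) =>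
        ((g (lap d k) : ℝ) : ℂ)) x‖ ≤ C / (1 + ‖x‖) ^ ((d : ℝ) / 3)) ∧
      (∫ k : UnitAddTorus (Fin d), |g (lap d k)| ^ p ≤ ε) ∧
    ∀ (ν : Measure ℝ) [IsProbabilityMeasure ν], κ ≤ vr ν →
      ∀ᵐ v ∂(Pn ν (Fin d → ℤ)), ACIK (K + gK g d) 1 v a b

end

end Pool.Agent.Y663.W5
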