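import Pool.Agent.Y663.W5.Gap5
import Pool.Agent.Y663.W5.Ch5
import Pool.Agent.Y663.W5.Stm2
import Pool.Agent.W792.WA.All2
import Pool.Agent.W915.WA.WH

/-!
The normalized theorem.
-/

set_option autoImplicit false

namespace Pool.Agent.Y663.W5

open MeasureTheory Filter Pool.Agent.W792.LL Pool.Agent.W792.WA Pool.Agent.W792.WA.Ch
  Pool.Agent.W792.WA.ChK
open scoped Topology

noncomputable section

theorem stepl : S_STEPL :=
  Step2L.main (StepL.main Al.sc1 Al.scl Al.gain Al.psi Al.uuc Al.fix Al.stab Al.cx Al.uni Al.c1)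
    Al.sc1 Al.scl Al.gain Al.psi Al.uuc Al.fix Al.stab Al.cx Al.psiw Al.zfw

/-- data of the small levels -/
theorem exists_ρ {ψ : C(UnitAddCircle, ℝ)} (hψ : IsSemi ψ) {r : ℝ} (hr : 0 < r) :
    ∃ ρ : ℕ → Measure ℝ, (∀ n, IsProbabilityMeasure (ρ n)) ∧
      (∀ n, ρ n = (lev ψ (r * (1 / 16) ^ n)).conv (ρ (n + 1))) ∧
      (∀ n, ρ n (Set.Icc (-(2 * r * (1 / 16) ^ n)) (2 * r * (1 / 16) ^ n))ᶜ = 0) ∧
      ∀ (n : ℕ) (a b : ℝ), ρ n {a, b} < 1 := by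
  set l : ℕ → ℝ := fun n => r * (1 / 16) ^ n with hl
  set T : ℕ → ℝ := fun n => 2 * r * (1 / 16) ^ n with hT
  have hl0 : ∀ n, 0 < l n := fun n => by simp only [hl]; positivity
  have hsum : Summable l :=
    (summable_geometric_of_lt_one (by norm_num) (by norm_num)).mul_left r
  obtain ⟨ρ, hρ1, hρ2, hρ3, hρ4⟩ := Al.fut ψ hψ l hl0 hsum
  have htail : ∀ n, ∑' j, l (n + j) ≤ T n := by
    intro n
    have h1 : ∀ j, l (n + j) = (r * (1 / 16) ^ n) * (1 / 16) ^ j := by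
      intro j; simp only [hl]; rw [pow_add]; ring
    simp only [h1]
    rw [tsum_mul_left, tsum_geometric_of_lt_one (by norm_num) (by norm_num)]
    have h2 : 0 < r * (1 / 16 : ℝ) ^ n := by positivity
    simp only [hT]
    have h3 : ((1 : ℝ) - 1 / 16)⁻¹ ≤ 2 := by norm_num
    calc r * (1 / 16 : ℝ) ^ n * (1 - 1 / 16)⁻¹ ≤ r * (1 / 16 : ℝ) ^ n * 2 := by gcongr
      _ = 2 * r * (1 / 16) ^ n := by ring
  refine ⟨ρ, hρ1, hρ2, fun n => ?_, hρ4⟩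
  refine measure_mono_null (Set.compl_subset_compl.2 ?_) (hρ3 n)
  have := htail n
  exact Set.Icc_subset_Icc (by linarith) this

theorem n5 (hC : S_CIRC) (hT : S_TAN5) (hS : S_SIZE5) : S_N5 := by
  intro d K p κ ε hd hp1 hp2 hκ hε
  obtain ⟨ψ, hψ, hψH⟩ := Pool.Agent.W915.WA.WH.main
  obtain ⟨ψ₀, R, η, h1, h2, h3, h4, h5, h6⟩ := gap5 (lev5 hC hT) p (min κ 1) (‖K‖ + (4 * d + 1))
    (ε / 16) hp1 hp2 (lt_min hκ one_pos) (min_le_right _ _) (by positivity)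
  obtain ⟨M₁, ε₁, hε₁, hε₁', hsz⟩ := hS d ψ₀ ψ R p ε hd h1.bound h2 hψ.bound hψH h3 hp1 hp2 hε h5
  obtain ⟨r, hr⟩ : ∃ r, r = ε₁ / 2 := ⟨_, rfl⟩
  have hr0 : 0 < r := by
    rw [hr]
    positivity
  obtain ⟨ρ, hρ1, hρ2, hρ3, hρ4⟩ := exists_ρ hψ hr0
  have i0 := hρ1 0
  have hP := StepL.prob_lev ψ₀ R
  have hρ00 : ρ 0 (Set.Icc (-(2 * r)) (2 * r))ᶜ = 0 := by
    have := hρ3 0
    simpa using this
  have hρ01 : ρ 0 (Set.Icc (-1) 1)ᶜ = 0 := by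
    refine measure_mono_null (Set.compl_subset_compl.2 ?_) hρ00
    exact Set.Icc_subset_Icc (by linarith) (by linarith)
  obtain ⟨𝓧, h𝓧⟩ : ∃ 𝓧 : Set MX, 𝓧 = {X | X ∈ Qf ∧ κ ≤ vr (qlaw X)} := ⟨_, rfl⟩
  have hvr : ∀ X ∈ 𝓧, 0 < vr (qlaw X) := by
    intro X hX
    rw [h𝓧] at hX
    exact lt_of_lt_of_le hκ hX.2
  have hTB : TB 𝓧 := by
    intro τ hτ
    obtain ⟨F, hF, hF1⟩ := Al.netx2 τ hτ
    refine ⟨F, hF, fun X hX => hF1 X ?_⟩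
    rw [h𝓧] at hX
    exact hX.1
  have hz5 : ∀ z ∈ Zs d, ‖z‖ ≤ 4 * d + 1 := by
    intro z hz
    obtain ⟨a1, a2, a3, a4⟩ := hz
    refine (Complex.norm_le_abs_re_add_abs_im z).trans ?_
    rw [abs_of_nonneg a1, abs_of_pos a3]
    linarith
  have hgap0 : ∀ X ∈ 𝓧, ∀ z ∈ Zs d, ∀ s,
      IsFix (qlaw X) ((lev ψ₀ R).conv (ρ 0)) (wz K z) s → ‖s‖ ≤ 1 - η := by
    intro X hX z hz s hs
    rw [h𝓧] at hX
    refine h6 (qlaw X) d K z (ρ 0) ((min_le_left _ _).trans hX.2) hρ01 ?_ hz.2.2.1 s hs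
    have := hz5 z hz
    linarith
  have hη2 : 0 < η / 2 := by positivity
  obtain ⟨M₀, hM₀⟩ := stepl d ψ₀ (ρ 0) (2 * r) η R K 𝓧 hd h1 hvr hTB hρ00 (hρ4 0) h3 h4 hgap0
    (η / 2) hη2
  obtain ⟨M, hM⟩ : ∃ M, M = max M₀ M₁ := ⟨_, rfl⟩
  have hM1 := hM₀ M (hM ▸ le_max_left _ _)
  obtain ⟨K1, hK1⟩ : ∃ K1, K1 = addL ψ₀ K R M := ⟨_, rfl⟩
  rw [← hK1] at hM1
  have hgap1 : ∀ X ∈ 𝓧, GapK (qlaw X) (ρ 0) K1 (η / 2) := by
    intro X hX z hz s' hs'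
    have hex := ((Al.uni2 d ((lev ψ₀ R).conv (ρ 0)) (2 * r + R) η K
      (StepL.conv_supp h1 h3 hρ00) (StepL.conv_two h1 h3) h4).1.choose_spec.2.2
        (qlaw X) (hvr X hX) (hgap0 X hX)).1 z hz
    obtain ⟨s, hs, -⟩ := hex
    have a1 := (hM1 X hX z hz s s' hs hs').1
    have a2 := hgap0 X hX z hz s hs
    have a3 : ‖s'‖ ≤ ‖s‖ + ‖s - s'‖ := by
      have := norm_sub_le s (s - s')
      rwa [sub_sub_cancel] at this
    linarith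
  let D : Ch5.Pr5 K1 𝓧 ψ := {
    l := fun n => r * (1 / 16) ^ n
    ρ := ρ
    T := fun n => 2 * r * (1 / 16) ^ n
    σ := η / 2
    hψ := hψ.bound
    hl := fun n => by positivity
    hT := by
      intro n
      rw [pow_succ]
      have : 0 < r * (1 / 16 : ℝ) ^ n := by positivity
      linarith
    hTp := fun n => by positivity
    hρ1 := hρ1
    hρ2 := hρ2
    hρ3 := hρ3
    hρ4 := hρ4
    hσ := hη2
    hX := hvr
    hTB := hTB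
    hgap := hgap1 }
  obtain ⟨g, hg1, hg2⟩ := Ch5.exists_f5 Al.cx Al.uuc Al.scl Al.zf Al.cay Al.mzp Al.uni Al.uni2
    Al.step2 hd hψ (r := r) D rfl
  have hr2 : 2 * r = ε₁ := by
    rw [hr]
    ring
  rw [hr2] at hg1
  obtain ⟨b1, b2, b3⟩ := hsz M g (hM ▸ le_max_right _ _) hg1
  refine ⟨lv0 ψ₀ R M + g, ⟨R + 1, b1⟩, b2, b3, fun ν _ lam hlam hv => ?_⟩
  have hPm : IsProbabilityMeasure (ν.map fun x => lam * x) :=
    Measure.isProbabilityMeasure_map (by fun_prop)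
  obtain ⟨X, hX1, hX2⟩ := Al.qnt2 (ν.map fun x => lam * x)
  have hXX : X ∈ 𝓧 := by
    rw [h𝓧]
    refine ⟨hX1, ?_⟩
    rw [hX2]
    exact hv
  have hMe := MestK_congr hX2 (hg2 X hXX)
  have hKK : kg K1 g = K + gK (lv0 ψ₀ R M + g) d := by
    ext k
    rw [hK1]
    change K k + R * ψ₀ ((M * lap d k / (2 * Real.pi) : ℝ) : UnitAddCircle) + g (lap d k) =
      K k + (R * ψ₀ ((M * lap d k / (2 * Real.pi) : ℝ) : UnitAddCircle) + g (lap d k))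
    ring
  rw [hKK] at hMe
  exact Al.aeqk d ν lam _ hd hlam hMe

end

end Pool.Agent.Y663.W5
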