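import Pool.Agent.Y663.W5.Stm2
import Pool.Agent.W332.WA.WB
import Pool.Agent.W792.WA.WS
import Pool.Agent.W62.WA.WD
import Pool.Agent.W988.WA.KC
import Pool.Agent.W174.WA.KA
import Pool.Agent.W469.WA.KB
import Pool.Agent.W191.LL.Avg0
import Pool.Agent.W688.LL.Osc

/-!
# Project W5: size and decay of a first level plus a sum of small levels (helper297)
-/

set_option autoImplicit false

namespace Pool.Agent.Y663.W5

open MeasureTheory Filter Pool.Agent.W792.LL Pool.Agent.W792.WA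
open scoped Topology

noncomputable section

theorem size_vol (d : ℕ) :
    (volume : Measure (UnitAddTorus (Fin d))) = Pool.Agent.W191.LL.mu d := by
  rw [volume_pi]
  unfold Pool.Agent.W191.LL.mu
  congr 1
  funext i
  rw [AddCircle.volume_eq_smul_haarAddCircle]
  simp

theorem size_mfc_zero {d : ℕ} (f : UnitAddTorus (Fin d) → ℂ) :
    UnitAddTorus.mFourierCoeff f 0 = ∫ t, f t := by
  rw [Pool.Agent.W191.LL.mfc_eq, size_vol]
  congr 1
  funext t
  rw [neg_zero, UnitAddTorus.mFourier_zero]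
  simp

theorem size_wd : S_WD := Pool.Agent.W62.WA.WD.main
  (Pool.Agent.W988.WA.KC.main Pool.Agent.W174.WA.KA.main Pool.Agent.W469.WA.KB.main)

theorem size_bound {ψ : C(UnitAddCircle, ℝ)} (hψ : ∀ t, |ψ t| ≤ 1) {S : ℝ} {g : C(ℝ, ℝ)}
    (h : IsSum ψ S g) (t : ℝ) : |g t| ≤ S := by
  obtain ⟨l, M, h1, h2, h3, h4⟩ := h
  have h5 : ∀ j, ‖l j * ψ ((M j * t / (2 * Real.pi) : ℝ) : UnitAddCircle)‖ ≤ l j := by
    intro j
    rw [Real.norm_eq_abs, abs_mul, abs_of_nonneg (h1 j)]
    exact mul_le_of_le_one_right (h1 j) (hψ _)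
  rw [h4, ← Real.norm_eq_abs]
  exact (tsum_of_norm_bounded h2.hasSum h5).trans h3

/-- `|u + v|^p ≤ 2 (|u|^p + |v|^p)` for `1 ≤ p ≤ 2` -/
theorem size_pow {p u v : ℝ} (h1 : 1 < p) (h2 : p < 2) :
    |u + v| ^ p ≤ 2 * (|u| ^ p + |v| ^ p) := by
  have h3 : |u + v| ^ p ≤ (|u| + |v|) ^ p :=
    Real.rpow_le_rpow (abs_nonneg _) (abs_add_le u v) (by linarith)
  have h4 := (convexOn_rpow h1.le).2 (abs_nonneg u) (abs_nonneg v)
    (show (0 : ℝ) ≤ 1 / 2 by norm_num) (show (0 : ℝ) ≤ 1 / 2 by norm_num) (by norm_num)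
  simp only [smul_eq_mul] at h4
  have h5 : (1 / 2 * |u| + 1 / 2 * |v| : ℝ) = (|u| + |v|) / 2 := by ring
  rw [h5, Real.div_rpow (by positivity) (by norm_num)] at h4
  have h6 : (2 : ℝ) ^ p ≤ 4 := by
    calc (2 : ℝ) ^ p ≤ (2 : ℝ) ^ (2 : ℝ) := Real.rpow_le_rpow_of_exponent_le (by norm_num) h2.le
      _ = 4 := by norm_num
  have h7 : 0 < (2 : ℝ) ^ p := by positivity
  rw [div_le_iff₀ h7] at h4
  have h8 : 0 ≤ 1 / 2 * |u| ^ p + 1 / 2 * |v| ^ p := by positivity
  have h9 : (1 / 2 * |u| ^ p + 1 / 2 * |v| ^ p) * (2 : ℝ) ^ p ≤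
      (1 / 2 * |u| ^ p + 1 / 2 * |v| ^ p) * 4 := mul_le_mul_of_nonneg_left h6 h8
  linarith

theorem size_int {d : ℕ} {f : UnitAddTorus (Fin d) → ℝ} (hf : Continuous f) :
    Integrable f :=
  hf.integrable_of_hasCompactSupport (HasCompactSupport.of_compactSpace _)

theorem size5 : S_SIZE5 := by
  intro d ψ₀ ψ R p ε hd hψ₀ hH₀ hψ hH hR hp1 hp2 hε hint
  have hp0 : 0 < p := by linarith
  obtain ⟨C0, hC0, hb0⟩ := size_wd d ψ₀ hd (Pool.Agent.W332.WA.WB.main ψ₀ hH₀)
  obtain ⟨C1, hC1, hb1⟩ := size_wd d ψ hd (Pool.Agent.W332.WA.WB.main ψ hH)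
  have hAvg : S_AVG0 := Pool.Agent.W191.LL.main Pool.Agent.W688.LL.Osc.main
  -- averaging of the first level
  obtain ⟨M₁, hM₁⟩ := hAvg d hd
    ⟨fun x : UnitAddTorus (Fin d) × UnitAddCircle => ((|R * ψ₀ x.2| ^ p : ℝ) : ℂ), by
      apply Complex.continuous_ofReal.comp
      apply Continuous.rpow_const
      · fun_prop
      · intro x
        right
        exact hp0.le⟩ (ε / 16) (by positivity)
  obtain ⟨ε₁, hε₁⟩ : ∃ ε₁, ε₁ = min (1 / 2) (ε / 4) := ⟨_, rfl⟩
  have he0 : 0 < ε₁ := by rw [hε₁]; exact lt_min (by norm_num) (by positivity)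
  have he1 : ε₁ ≤ 1 / 2 := by rw [hε₁]; exact min_le_left _ _
  have he2 : ε₁ ≤ ε / 4 := by rw [hε₁]; exact min_le_right _ _
  refine ⟨M₁, ε₁, he0, he1, fun M g hM hg => ⟨?_, ?_, ?_⟩⟩
  · intro t
    have h1 := size_bound hψ hg t
    have h2 : |lv0 ψ₀ R M t| ≤ R := by
      show |R * ψ₀ _| ≤ R
      rw [abs_mul, abs_of_pos hR]
      exact mul_le_of_le_one_right hR.le (hψ₀ _)
    rw [ContinuousMap.add_apply]
    have := abs_add_le (lv0 ψ₀ R M t) (g t)
    linarith
  · refine ⟨R * C0 + ε₁ * C1, fun x => ?_⟩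
    have hden : 0 < (1 + ‖x‖) ^ ((d : ℝ) / 3) := by positivity
    have h1 := Pool.Agent.W792.WA.WSP.main d ψ C1 ε₁ g hd hC1.le he0.le hb1 hg x
    have h2 : UnitAddTorus.mFourierCoeff (fun k : UnitAddTorus (Fin d) =>
        (((lv0 ψ₀ R M + g) (lap d k) : ℝ) : ℂ)) x =
        R * UnitAddTorus.mFourierCoeff (fun k : UnitAddTorus (Fin d) =>
          ((ψ₀ ((M * lap d k / (2 * Real.pi) : ℝ) : UnitAddCircle) : ℝ) : ℂ)) x +
        UnitAddTorus.mFourierCoeff (fun k : UnitAddTorus (Fin d) => ((g (lap d k) : ℝ) : ℂ)) x := by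
      rw [← Pool.Agent.W191.LL.mfc_smul, ← Pool.Agent.W191.LL.mfc_add]
      · congr 1
        funext k
        have h5 : lv0 ψ₀ R M (lap d k) =
          R * ψ₀ ((M * lap d k / (2 * Real.pi) : ℝ) : UnitAddCircle) := rfl
        rw [ContinuousMap.add_apply, h5, Complex.ofReal_add, Complex.ofReal_mul]
      · apply Continuous.mul continuous_const
        apply Complex.continuous_ofReal.comp
        apply ψ₀.continuous.comp
        exact (AddCircle.continuous_mk' (1 : ℝ)).comp (by fun_prop)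
      · fun_prop
    rw [h2]
    refine (norm_add_le _ _).trans ?_
    rw [norm_mul, Complex.norm_real, Real.norm_eq_abs, abs_of_pos hR, add_div]
    refine add_le_add ?_ h1
    rw [mul_div_assoc]
    exact mul_le_mul_of_nonneg_left (hb0 M x) hR.le
  · have : IsProbabilityMeasure (volume : Measure (UnitAddTorus (Fin d))) := by
      rw [size_vol]; infer_instance
    have hc0 : Continuous fun k : UnitAddTorus (Fin d) =>
        |R * ψ₀ ((M * lap d k / (2 * Real.pi) : ℝ) : UnitAddCircle)| ^ p := by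
      apply Continuous.rpow_const
      · apply Continuous.abs
        apply Continuous.mul continuous_const
        apply ψ₀.continuous.comp
        exact (AddCircle.continuous_mk' (1 : ℝ)).comp (by fun_prop)
      · intro x
        right
        exact hp0.le
    have hav := hM₁ M hM 0
    rw [size_mfc_zero] at hav
    simp only [ContinuousMap.coe_mk] at hav
    have hI : ∫ φ in Set.Ioc (0 : ℝ) 1, ((|R * ψ₀ (φ : UnitAddCircle)| ^ p : ℝ) : ℂ) =
        ((∫ φ in Set.Ioc (0 : ℝ) 1, |R * ψ₀ (φ : UnitAddCircle)| ^ p : ℝ) : ℂ) := integral_ofReal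
    rw [hI] at hav
    have hav2 : ∫ k : UnitAddTorus (Fin d),
        (((|R * ψ₀ ((M * lap d k / (2 * Real.pi) : ℝ) : UnitAddCircle)| ^ p : ℝ) : ℂ) -
        ((∫ φ in Set.Ioc (0 : ℝ) 1, |R * ψ₀ (φ : UnitAddCircle)| ^ p : ℝ) : ℂ)) =
        (((∫ k : UnitAddTorus (Fin d),
          |R * ψ₀ ((M * lap d k / (2 * Real.pi) : ℝ) : UnitAddCircle)| ^ p) -
          ∫ φ in Set.Ioc (0 : ℝ) 1, |R * ψ₀ (φ : UnitAddCircle)| ^ p : ℝ) : ℂ) := by
      have h7 : ∫ k : UnitAddTorus (Fin d),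
          ((|R * ψ₀ ((M * lap d k / (2 * Real.pi) : ℝ) : UnitAddCircle)| ^ p : ℝ) : ℂ) =
          ((∫ k : UnitAddTorus (Fin d),
            |R * ψ₀ ((M * lap d k / (2 * Real.pi) : ℝ) : UnitAddCircle)| ^ p : ℝ) : ℂ) :=
        integral_ofReal
      rw [integral_sub (size_int hc0).ofReal (integrable_const _), integral_const, probReal_univ,
        one_smul, h7, Complex.ofReal_sub]
    rw [hav2, Complex.norm_real, Real.norm_eq_abs] at hav
    have h1 := (le_abs_self _).trans hav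
    have h2 : ∫ k : UnitAddTorus (Fin d), |(lv0 ψ₀ R M + g) (lap d k)| ^ p ≤
        ∫ k : UnitAddTorus (Fin d),
          (2 * |R * ψ₀ ((M * lap d k / (2 * Real.pi) : ℝ) : UnitAddCircle)| ^ p + ε / 2) := by
      refine integral_mono (size_int ?_) (size_int ?_) fun k => ?_
      · apply Continuous.rpow_const
        · fun_prop
        · intro x
          right
          exact hp0.le
      · exact (continuous_const.mul hc0).add continuous_const
      · simp only [ContinuousMap.add_apply]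
        refine (size_pow hp1 hp2).trans ?_
        have h3 : |g (lap d k)| ^ p ≤ ε / 4 := by
          have h4 := size_bound hψ hg (lap d k)
          calc |g (lap d k)| ^ p ≤ ε₁ ^ p := Real.rpow_le_rpow (abs_nonneg _) h4 hp0.le
            _ ≤ ε₁ ^ (1 : ℝ) := Real.rpow_le_rpow_of_exponent_ge he0 (by linarith) hp1.le
            _ = ε₁ := Real.rpow_one _
            _ ≤ ε / 4 := he2
        have h5 : lv0 ψ₀ R M (lap d k) =
          R * ψ₀ ((M * lap d k / (2 * Real.pi) : ℝ) : UnitAddCircle) := rfl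
        rw [h5]
        linarith
    rw [integral_add ((size_int hc0).const_mul 2) (integrable_const _), integral_const_mul,
      integral_const, probReal_univ, one_smul] at h2
    linarith

end

end Pool.Agent.Y663.W5
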