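import Pool.Agent.Y663.W5.Stm

set_option autoImplicit false

/-!
# Project W5: the truncated tangent level function (S_TAN5)

(proof: helper663, Lean: helper155)
-/

namespace Pool.Agent.Y663.W5

open MeasureTheory Filter Pool.Agent.W792.LL Pool.Agent.W792.WA
open scoped Topology

noncomputable section

/-- the truncated tangent -/
def tan_h (m φ : ℝ) : ℝ :=
  -(Real.sin (2 * Real.pi * φ)) / max (1 - Real.cos (2 * Real.pi * φ)) m

/-- the truncated tangent as a function on the circle -/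
def tan_H (m : ℝ) (hm : 0 < m) (c : ℝ) : C(UnitAddCircle, ℝ) where
  toFun t := -((fourier 1 t : ℂ).im) / max (1 - (fourier 1 t : ℂ).re) m / c
  continuous_toFun := by
    have h1 : Continuous (fun t : UnitAddCircle => (fourier 1 t : ℂ)) := (fourier 1).continuous
    have h2 : Continuous (fun t : UnitAddCircle => (fourier 1 t : ℂ).im) :=
      Complex.continuous_im.comp h1
    have h3 : Continuous (fun t : UnitAddCircle => (fourier 1 t : ℂ).re) :=
      Complex.continuous_re.comp h1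
    refine (Continuous.div h2.neg ((continuous_const.sub h3).max continuous_const)
      fun t => ?_).div_const c
    exact (lt_of_lt_of_le hm (le_max_right _ _)).ne'

theorem tan_H_coe (m : ℝ) (hm : 0 < m) (c φ : ℝ) :
    tan_H m hm c (φ : UnitAddCircle) = tan_h m φ / c := by
  have h : (fourier 1 (φ : UnitAddCircle) : ℂ) =
      Complex.exp (((2 * Real.pi * φ : ℝ) : ℂ) * Complex.I) := by
    rw [fourier_coe_apply]
    congr 1
    push_cast
    ring
  change -((fourier 1 (φ : UnitAddCircle) : ℂ).im) /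
    max (1 - (fourier 1 (φ : UnitAddCircle) : ℂ).re) m / c = _
  rw [h, Complex.exp_ofReal_mul_I_re, Complex.exp_ofReal_mul_I_im, tan_h]

theorem tan_cos2 (φ : ℝ) : 1 - Real.cos (2 * Real.pi * φ) = 2 * Real.sin (Real.pi * φ) ^ 2 := by
  rw [show 2 * Real.pi * φ = 2 * (Real.pi * φ) by ring, Real.cos_two_mul]
  have := Real.sin_sq_add_cos_sq (Real.pi * φ)
  linarith

theorem tan_sin2 (φ : ℝ) : Real.sin (2 * Real.pi * φ) =
    2 * Real.sin (Real.pi * φ) * Real.cos (Real.pi * φ) := by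
  rw [show 2 * Real.pi * φ = 2 * (Real.pi * φ) by ring, Real.sin_two_mul]

theorem tan_h_eq (σ φ : ℝ) : tan_h (2 * σ ^ 2) φ =
    -(Real.sin (Real.pi * φ) * Real.cos (Real.pi * φ)) /
      max (Real.sin (Real.pi * φ) ^ 2) (σ ^ 2) := by
  have h : max (2 * Real.sin (Real.pi * φ) ^ 2) (2 * σ ^ 2) =
      2 * max (Real.sin (Real.pi * φ) ^ 2) (σ ^ 2) := by
    rw [mul_max_of_nonneg _ _ (by norm_num : (0 : ℝ) ≤ 2)]
  rw [tan_h, tan_cos2, tan_sin2, h, show -(2 * Real.sin (Real.pi * φ) * Real.cos (Real.pi * φ)) =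
    2 * -(Real.sin (Real.pi * φ) * Real.cos (Real.pi * φ)) by ring,
    mul_div_mul_left _ _ (by norm_num : (2 : ℝ) ≠ 0)]

/-- the global bound -/
theorem tan_h_le {σ κ : ℝ} (hσ : 0 < σ) (hκ : 0 ≤ κ) (hs : σ ^ 2 + κ ^ 2 = 1)
    (h2 : σ ^ 2 ≤ 1 / 2) (φ : ℝ) : |tan_h (2 * σ ^ 2) φ| ≤ κ / σ := by
  have h1 := Real.sin_sq_add_cos_sq (Real.pi * φ)
  rw [tan_h_eq]
  generalize Real.sin (Real.pi * φ) = s at *
  generalize Real.cos (Real.pi * φ) = c at *
  have hM : 0 < max (s ^ 2) (σ ^ 2) := lt_of_lt_of_le (by positivity) (le_max_right _ _)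
  rw [abs_div, abs_neg, abs_of_pos hM, abs_mul, div_le_div_iff₀ hM hσ]
  have key : (|s| * |c| * σ) ^ 2 ≤ (κ * max (s ^ 2) (σ ^ 2)) ^ 2 := by
    rw [mul_pow, mul_pow, sq_abs, sq_abs, mul_pow]
    have hc : c ^ 2 = 1 - s ^ 2 := by linarith
    have hk : κ ^ 2 = 1 - σ ^ 2 := by linarith
    rw [hc, hk]
    rcases le_total (σ ^ 2) (s ^ 2) with h | h
    · rw [max_eq_left h]
      have h3 : s ^ 2 ≤ 1 := by nlinarith [sq_nonneg c]
      have h4 : (1 - s ^ 2) * σ ^ 2 ≤ (1 - σ ^ 2) * s ^ 2 := by nlinarith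
      have h5 : 0 ≤ s ^ 2 := sq_nonneg s
      nlinarith [mul_le_mul_of_nonneg_left h4 h5]
    · rw [max_eq_right h]
      have h4 : s ^ 2 * (1 - s ^ 2) ≤ (1 - σ ^ 2) * σ ^ 2 := by
        nlinarith [mul_nonneg (sub_nonneg.2 h) (by nlinarith : (0 : ℝ) ≤ 1 - s ^ 2 - σ ^ 2)]
      have h5 : 0 ≤ σ ^ 2 := sq_nonneg σ
      nlinarith [mul_le_mul_of_nonneg_right h4 h5]
  exact (pow_le_pow_iff_left₀ (by positivity) (by positivity) two_ne_zero).1 key

theorem tan_h_mid {σ φ : ℝ} (hσ : 0 < σ) (h : σ ≤ Real.sin (Real.pi * φ)) :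
    tan_h (2 * σ ^ 2) φ = ct φ := by
  have hs : 0 < Real.sin (Real.pi * φ) := lt_of_lt_of_le hσ h
  rw [tan_h_eq, max_eq_left (pow_le_pow_left₀ hσ.le h 2), ct]
  field_simp

theorem tan_sin_le {dl φ : ℝ} (h0 : 0 ≤ dl) (h1 : dl ≤ φ) (h2 : φ ≤ 1 - dl) :
    Real.sin (Real.pi * dl) ≤ Real.sin (Real.pi * φ) := by
  have hpi := Real.pi_pos
  rcases le_total φ (1 / 2) with h | h
  · exact Real.sin_le_sin_of_le_of_le_pi_div_two (by nlinarith) (by nlinarith) (by nlinarith)
  · rw [← Real.sin_pi_sub (Real.pi * φ)]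
    exact Real.sin_le_sin_of_le_of_le_pi_div_two (by nlinarith) (by nlinarith) (by nlinarith)

theorem tan_cot_le {x : ℝ} (h0 : 0 < x) (h1 : x ≤ Real.pi / 2) : x * Real.cos x ≤ Real.sin x := by
  rcases h1.eq_or_lt with rfl | h2
  · simp
  · have h3 := Real.lt_tan h0 h2
    have h4 : 0 < Real.cos x := Real.cos_pos_of_mem_Ioo ⟨by linarith, h2⟩
    rw [Real.tan_eq_sin_div_cos, lt_div_iff₀ h4] at h3
    exact h3.le

theorem tan_cot_le' {x : ℝ} (h0 : 0 < x) (h1 : x ≤ Real.pi / 2) :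
    Real.cos x / Real.sin x ≤ 1 / x := by
  have h2 : 0 < Real.sin x := Real.sin_pos_of_pos_of_lt_pi h0 (by linarith [Real.pi_pos])
  rw [div_le_div_iff₀ h2 h0]
  have := tan_cot_le h0 h1
  linarith

theorem tan_countable_sin (b : ℝ) : {φ : ℝ | Real.sin (2 * Real.pi * φ) = b}.Countable := by
  rcases Set.eq_empty_or_nonempty {φ : ℝ | Real.sin (2 * Real.pi * φ) = b} with h | ⟨φ₀, h0⟩
  · rw [h]
    exact Set.countable_empty
  · refine ((Set.countable_range (fun k : ℤ => (k : ℝ) + φ₀)).union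
      (Set.countable_range (fun k : ℤ => (2 * (k : ℝ) + 1) / 2 - φ₀))).mono ?_
    intro φ hφ
    have h1 : Real.sin (2 * Real.pi * φ₀) = Real.sin (2 * Real.pi * φ) := h0.trans hφ.symm
    rw [Real.sin_eq_sin_iff] at h1
    have hpi := Real.pi_pos
    obtain ⟨k, hk | hk⟩ := h1
    · left
      refine ⟨k, ?_⟩
      have : 2 * Real.pi * ((k : ℝ) + φ₀) = 2 * Real.pi * φ := by rw [hk]; ring
      exact mul_left_cancel₀ (by positivity) this
    · right
      refine ⟨k, ?_⟩
      have : 2 * Real.pi * ((2 * (k : ℝ) + 1) / 2 - φ₀) = 2 * Real.pi * φ := by rw [hk]; ring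
      exact mul_left_cancel₀ (by positivity) this

theorem tan_countable_cot (a : ℝ) :
    {φ : ℝ | Real.cos (Real.pi * φ) + a * Real.sin (Real.pi * φ) = 0}.Countable := by
  rcases Set.eq_empty_or_nonempty
    {φ : ℝ | Real.cos (Real.pi * φ) + a * Real.sin (Real.pi * φ) = 0} with h | ⟨φ₀, h0⟩
  · rw [h]
    exact Set.countable_empty
  · refine (Set.countable_range (fun k : ℤ => (k : ℝ) + φ₀)).mono ?_
    intro φ hφ
    have e1 : Real.cos (Real.pi * φ₀) = -(a * Real.sin (Real.pi * φ₀)) := by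
      have : Real.cos (Real.pi * φ₀) + a * Real.sin (Real.pi * φ₀) = 0 := h0
      linarith
    have e2 : Real.cos (Real.pi * φ) = -(a * Real.sin (Real.pi * φ)) := by
      have : Real.cos (Real.pi * φ) + a * Real.sin (Real.pi * φ) = 0 := hφ
      linarith
    have h1 : Real.sin (Real.pi * φ - Real.pi * φ₀) = 0 := by
      rw [Real.sin_sub, e1, e2]
      ring
    rw [Real.sin_eq_zero_iff] at h1
    obtain ⟨k, hk⟩ := h1
    refine ⟨k, ?_⟩
    have hpi := Real.pi_pos
    have : Real.pi * ((k : ℝ) + φ₀) = Real.pi * φ := by linarith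
    exact mul_left_cancel₀ (by positivity) this

theorem tan_level (m a : ℝ) (hm : 0 < m) : {φ : ℝ | tan_h m φ = a}.Countable := by
  refine ((tan_countable_sin (-(a * m))).union (tan_countable_cot a)).mono ?_
  intro φ hφ
  have hφ : tan_h m φ = a := hφ
  unfold tan_h at hφ
  rcases le_or_gt (1 - Real.cos (2 * Real.pi * φ)) m with h | h
  · left
    rw [max_eq_right h, div_eq_iff hm.ne'] at hφ
    simp only [Set.mem_setOf_eq]
    linarith
  · right
    rw [max_eq_left h.le, div_eq_iff (by linarith), tan_cos2, tan_sin2] at hφ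
    rw [tan_cos2] at h
    have hs : Real.sin (Real.pi * φ) ≠ 0 := by
      intro h0
      rw [h0] at h
      norm_num at h
      linarith
    simp only [Set.mem_setOf_eq]
    have : 2 * Real.sin (Real.pi * φ) * (Real.cos (Real.pi * φ) + a * Real.sin (Real.pi * φ)) = 0 := by
      linear_combination -hφ
    rcases mul_eq_zero.1 this with h3 | h3
    · exact absurd (by simpa using h3) hs
    · exact h3

theorem tan_lip (m : ℝ) (hm : 0 < m) (s t : ℝ) :
    |tan_h m s - tan_h m t| ≤ (2 * Real.pi / m + 2 * Real.pi / m ^ 2) * |s - t| := by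
  have hpi := Real.pi_pos
  have hS : |Real.sin (2 * Real.pi * s) - Real.sin (2 * Real.pi * t)| ≤
      2 * Real.pi * |s - t| := by
    have h1 := Real.lipschitzWith_sin.dist_le_mul (2 * Real.pi * s) (2 * Real.pi * t)
    simp only [Real.dist_eq, NNReal.coe_one, one_mul] at h1
    rw [← mul_sub, abs_mul (2 * Real.pi) (s - t),
      abs_of_pos (by positivity : (0 : ℝ) < 2 * Real.pi)] at h1
    exact h1
  have hC : |Real.cos (2 * Real.pi * s) - Real.cos (2 * Real.pi * t)| ≤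
      2 * Real.pi * |s - t| := by
    have h1 := Real.lipschitzWith_cos.dist_le_mul (2 * Real.pi * s) (2 * Real.pi * t)
    simp only [Real.dist_eq, NNReal.coe_one, one_mul] at h1
    rw [← mul_sub, abs_mul (2 * Real.pi) (s - t),
      abs_of_pos (by positivity : (0 : ℝ) < 2 * Real.pi)] at h1
    exact h1
  have hM : |max (1 - Real.cos (2 * Real.pi * s)) m - max (1 - Real.cos (2 * Real.pi * t)) m| ≤
      2 * Real.pi * |s - t| := by
    refine (abs_max_sub_max_le_abs _ _ _).trans ?_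
    rw [show 1 - Real.cos (2 * Real.pi * s) - (1 - Real.cos (2 * Real.pi * t)) =
      -(Real.cos (2 * Real.pi * s) - Real.cos (2 * Real.pi * t)) by ring, abs_neg]
    exact hC
  have hSt : |Real.sin (2 * Real.pi * t)| ≤ 1 := Real.abs_sin_le_one _
  unfold tan_h
  have m1 : m ≤ max (1 - Real.cos (2 * Real.pi * s)) m := le_max_right _ _
  have m2 : m ≤ max (1 - Real.cos (2 * Real.pi * t)) m := le_max_right _ _
  generalize max (1 - Real.cos (2 * Real.pi * s)) m = M1 at *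
  generalize max (1 - Real.cos (2 * Real.pi * t)) m = M2 at *
  generalize Real.sin (2 * Real.pi * s) = S1 at *
  generalize Real.sin (2 * Real.pi * t) = S2 at *
  have p1 : 0 < M1 := lt_of_lt_of_le hm m1
  have p2 : 0 < M2 := lt_of_lt_of_le hm m2
  have e : -S1 / M1 - -S2 / M2 = -((S1 - S2) / M1) + S2 * (M1 - M2) / (M1 * M2) := by
    field_simp
    ring
  rw [e]
  refine (abs_add_le _ _).trans ?_
  rw [abs_neg, abs_div, abs_div, abs_mul, abs_of_pos p1, abs_of_pos (mul_pos p1 p2), add_mul]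
  have hst : 0 ≤ |s - t| := abs_nonneg _
  refine add_le_add ?_ ?_
  · calc |S1 - S2| / M1 ≤ (2 * Real.pi * |s - t|) / m := by gcongr
      _ = 2 * Real.pi / m * |s - t| := by ring
  · have h5 : m ^ 2 ≤ M1 * M2 := by nlinarith
    calc |S2| * |M1 - M2| / (M1 * M2) ≤ 1 * (2 * Real.pi * |s - t|) / m ^ 2 := by gcongr
      _ = 2 * Real.pi / m ^ 2 * |s - t| := by ring

theorem tan_cont (m : ℝ) (hm : 0 < m) : Continuous (tan_h m) := by
  unfold tan_h
  refine Continuous.div (by fun_prop) (by fun_prop) fun φ => ?_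
  exact (lt_of_lt_of_le hm (le_max_right _ _)).ne'

theorem tan_symm (m φ : ℝ) : tan_h m (1 - φ) = -tan_h m φ := by
  unfold tan_h
  rw [show 2 * Real.pi * (1 - φ) = 2 * Real.pi - 2 * Real.pi * φ by ring, Real.sin_two_pi_sub,
    Real.cos_two_pi_sub]
  ring

theorem tan_int {γ dl : ℝ} (hγ : 0 < γ) (h0 : 0 < dl) (h1 : dl ≤ 1 / 4) {p : ℝ} (hp : 1 < p) :
    ∫ φ in Set.Ioc (0 : ℝ) 1, |γ * tan_h (2 * Real.sin (Real.pi * dl) ^ 2) φ| ^ p ≤
      2 * ((γ / Real.pi) ^ p * dl ^ (1 - p) * (1 + 1 / (p - 1))) := by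
  have hpi := Real.pi_pos
  have hσ : 0 < Real.sin (Real.pi * dl) :=
    Real.sin_pos_of_pos_of_lt_pi (by positivity) (by nlinarith)
  have hκ : 0 < Real.cos (Real.pi * dl) :=
    Real.cos_pos_of_mem_Ioo ⟨by nlinarith, by nlinarith⟩
  have hσ2 : Real.sin (Real.pi * dl) ^ 2 ≤ 1 / 2 := by
    have h3 := tan_cos2 dl
    have h4 : 0 ≤ Real.cos (2 * Real.pi * dl) :=
      Real.cos_nonneg_of_mem_Icc ⟨by nlinarith, by nlinarith⟩
    linarith
  set m : ℝ := 2 * Real.sin (Real.pi * dl) ^ 2 with hm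
  have hm0 : 0 < m := by positivity
  set F : ℝ → ℝ := fun φ => |γ * tan_h m φ| ^ p with hF
  have hFc : Continuous F := by
    refine Continuous.rpow_const ?_ fun _ => Or.inr (by linarith)
    exact (continuous_const.mul (tan_cont m hm0)).abs
  have hFi : ∀ a b : ℝ, IntervalIntegrable F volume a b := fun a b => hFc.intervalIntegrable a b
  have hFs : ∀ φ, F (1 - φ) = F φ := fun φ => by
    simp only [hF, tan_symm, mul_neg, abs_neg]
  rw [← intervalIntegral.integral_of_le zero_le_one]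
  have s1 : ∫ φ in (1 / 2 : ℝ)..1, F φ = ∫ φ in (0 : ℝ)..(1 / 2), F φ := by
    have := intervalIntegral.integral_comp_sub_left (a := (1 / 2 : ℝ)) (b := 1) F 1
    simp only [hFs] at this
    rw [this]
    norm_num
  rw [← intervalIntegral.integral_add_adjacent_intervals (hFi 0 (1 / 2)) (hFi (1 / 2) 1), s1,
    ← two_mul]
  refine mul_le_mul_of_nonneg_left ?_ (by norm_num)
  rw [← intervalIntegral.integral_add_adjacent_intervals (hFi 0 dl) (hFi dl (1 / 2))]
  have hγp : 0 < γ / Real.pi := by positivity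
  have b1 : ∫ φ in (0 : ℝ)..dl, F φ ≤ (γ / Real.pi) ^ p * dl ^ (1 - p) := by
    have h3 : ∀ φ ∈ Set.Icc 0 dl, F φ ≤ (γ / Real.pi / dl) ^ p := by
      intro φ _
      refine Real.rpow_le_rpow (abs_nonneg _) ?_ (by linarith)
      rw [abs_mul, abs_of_pos hγ]
      have h4 := tan_h_le hσ hκ.le (Real.sin_sq_add_cos_sq _) hσ2 φ
      have h5 := tan_cot_le' (x := Real.pi * dl) (by positivity) (by nlinarith)
      calc γ * |tan_h m φ| ≤ γ * (1 / (Real.pi * dl)) :=
            mul_le_mul_of_nonneg_left (h4.trans h5) hγ.le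
        _ = γ / Real.pi / dl := by field_simp
    calc ∫ φ in (0 : ℝ)..dl, F φ ≤ ∫ _φ in (0 : ℝ)..dl, (γ / Real.pi / dl) ^ p :=
          intervalIntegral.integral_mono_on h0.le (hFi _ _) (by simp) h3
      _ = (γ / Real.pi) ^ p * dl ^ (1 - p) := by
          rw [intervalIntegral.integral_const, sub_zero, smul_eq_mul,
            Real.div_rpow hγp.le h0.le, Real.rpow_sub h0, Real.rpow_one]
          ring
  have b2 : ∫ φ in dl..(1 / 2 : ℝ), F φ ≤ (γ / Real.pi) ^ p * dl ^ (1 - p) * (1 / (p - 1)) := by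
    have hno : (0 : ℝ) ∉ Set.uIcc dl (1 / 2) := by
      rw [Set.uIcc_of_le (by linarith)]
      intro h
      exact absurd h.1 (by linarith)
    have h3 : ∀ φ ∈ Set.Icc dl (1 / 2), F φ ≤ (γ / Real.pi) ^ p * φ ^ (-p) := by
      intro φ hφ
      have hφ0 : 0 < φ := lt_of_lt_of_le h0 hφ.1
      rw [Real.rpow_neg hφ0.le, ← div_eq_mul_inv, ← Real.div_rpow hγp.le hφ0.le]
      refine Real.rpow_le_rpow (abs_nonneg _) ?_ (by linarith)
      rw [abs_mul, abs_of_pos hγ, tan_h_mid hσ (tan_sin_le h0.le hφ.1 (by linarith [hφ.2])), ct,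
        abs_neg]
      have hx : Real.pi * φ ≤ Real.pi / 2 := by nlinarith [hφ.2]
      have h6 : 0 ≤ Real.cos (Real.pi * φ) :=
        Real.cos_nonneg_of_mem_Icc ⟨by nlinarith, hx⟩
      have h7 : 0 < Real.sin (Real.pi * φ) :=
        lt_of_lt_of_le hσ (tan_sin_le h0.le hφ.1 (by linarith [hφ.2]))
      rw [abs_of_nonneg (div_nonneg h6 h7.le)]
      have h5 := tan_cot_le' (x := Real.pi * φ) (by positivity) hx
      calc γ * (Real.cos (Real.pi * φ) / Real.sin (Real.pi * φ)) ≤ γ * (1 / (Real.pi * φ)) :=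
            mul_le_mul_of_nonneg_left h5 hγ.le
        _ = γ / Real.pi / φ := by field_simp
    have hint : IntervalIntegrable (fun φ : ℝ => (γ / Real.pi) ^ p * φ ^ (-p)) volume dl (1 / 2) :=
      (intervalIntegral.intervalIntegrable_rpow (Or.inr hno)).const_mul _
    calc ∫ φ in dl..(1 / 2 : ℝ), F φ ≤ ∫ φ in dl..(1 / 2 : ℝ), (γ / Real.pi) ^ p * φ ^ (-p) :=
          intervalIntegral.integral_mono_on (by linarith) (hFi _ _) hint h3
      _ = (γ / Real.pi) ^ p * (((1 / 2 : ℝ) ^ (-p + 1) - dl ^ (-p + 1)) / (-p + 1)) := by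
          rw [intervalIntegral.integral_const_mul, integral_rpow (Or.inr ⟨by linarith, hno⟩)]
      _ = (γ / Real.pi) ^ p * ((dl ^ (1 - p) - (1 / 2 : ℝ) ^ (1 - p)) * (1 / (p - 1))) := by
          rw [show -p + 1 = 1 - p by ring]
          congr 1
          have : p - 1 ≠ 0 := by linarith
          have h8 : 1 - p ≠ 0 := by linarith
          field_simp
          ring
      _ ≤ (γ / Real.pi) ^ p * dl ^ (1 - p) * (1 / (p - 1)) := by
          rw [mul_assoc]
          have : 0 < p - 1 := by linarith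
          have h9 : (0 : ℝ) < (1 / 2 : ℝ) ^ (1 - p) := by positivity
          gcongr
          linarith
  calc _ ≤ (γ / Real.pi) ^ p * dl ^ (1 - p) +
        (γ / Real.pi) ^ p * dl ^ (1 - p) * (1 / (p - 1)) := add_le_add b1 b2
    _ = _ := by ring

theorem tan_num {γ τ p : ℝ} (hγ : 0 < γ) (hτ : 0 < τ) (hp : 1 < p) (hp2 : p < 2) :
    2 * ((γ / Real.pi) ^ p * (τ / 2) ^ (1 - p) * (1 + 1 / (p - 1))) ≤
      4 * γ ^ p * τ ^ (1 - p) / (p - 1) := by
  have hpi : 3 < Real.pi := Real.pi_gt_three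
  have hp0 : 0 < p - 1 := by linarith
  have e1 : (γ / Real.pi) ^ p ≤ γ ^ p / 3 := by
    rw [Real.div_rpow hγ.le (by linarith)]
    have : (3 : ℝ) ≤ Real.pi ^ p := by
      refine hpi.le.trans ?_
      have := Real.rpow_le_rpow_of_exponent_le (by linarith : (1 : ℝ) ≤ Real.pi) hp.le
      rwa [Real.rpow_one] at this
    have h2 : 0 < γ ^ p := by positivity
    gcongr
  have e2 : (τ / 2) ^ (1 - p) ≤ 2 * τ ^ (1 - p) := by
    rw [Real.div_rpow hτ.le (by norm_num), div_eq_mul_inv, ← Real.rpow_neg (by norm_num), mul_comm]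
    have h2 : (2 : ℝ) ^ (-(1 - p)) ≤ 2 ^ (1 : ℝ) :=
      Real.rpow_le_rpow_of_exponent_le (by norm_num) (by linarith)
    rw [Real.rpow_one] at h2
    have h3 : 0 < τ ^ (1 - p) := by positivity
    gcongr
  have e3 : 1 + 1 / (p - 1) ≤ 2 / (p - 1) := by
    rw [show 1 + 1 / (p - 1) = p / (p - 1) by field_simp; ring]
    gcongr
  have g1 : 0 < γ ^ p := by positivity
  have g2 : 0 < τ ^ (1 - p) := by positivity
  have g3 : (0 : ℝ) ≤ 1 + 1 / (p - 1) := by positivity
  calc 2 * ((γ / Real.pi) ^ p * (τ / 2) ^ (1 - p) * (1 + 1 / (p - 1)))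
      ≤ 2 * (γ ^ p / 3 * (2 * τ ^ (1 - p)) * (2 / (p - 1))) := by gcongr
    _ = 8 / 3 * (γ ^ p * τ ^ (1 - p) / (p - 1)) := by ring
    _ ≤ 4 * (γ ^ p * τ ^ (1 - p) / (p - 1)) := by
        have : 0 ≤ γ ^ p * τ ^ (1 - p) / (p - 1) := by positivity
        nlinarith
    _ = _ := by ring

theorem tan5 : S_TAN5 := by
  intro γ τ hγ hτ hτ2
  have hpi := Real.pi_pos
  set dl : ℝ := τ / 2 with hdl
  have h0 : 0 < dl := by positivity
  have h1 : dl ≤ 1 / 4 := by rw [hdl]; linarith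
  have hσ : 0 < Real.sin (Real.pi * dl) :=
    Real.sin_pos_of_pos_of_lt_pi (by positivity) (by nlinarith)
  have hκ : 0 < Real.cos (Real.pi * dl) :=
    Real.cos_pos_of_mem_Ioo ⟨by nlinarith, by nlinarith⟩
  have hσ2 : Real.sin (Real.pi * dl) ^ 2 ≤ 1 / 2 := by
    have h3 := tan_cos2 dl
    have h4 : 0 ≤ Real.cos (2 * Real.pi * dl) :=
      Real.cos_nonneg_of_mem_Icc ⟨by nlinarith, by nlinarith⟩
    linarith
  set m : ℝ := 2 * Real.sin (Real.pi * dl) ^ 2 with hm
  have hm0 : 0 < m := by positivity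
  set c0 : ℝ := Real.cos (Real.pi * dl) / Real.sin (Real.pi * dl) with hc0
  have hc : 0 < c0 := by positivity
  have hb : ∀ φ, |tan_h m φ| ≤ c0 := fun φ =>
    tan_h_le hσ hκ.le (Real.sin_sq_add_cos_sq _) hσ2 φ
  have hmul : ∀ φ : ℝ, γ * c0 * tan_H m hm0 c0 (φ : UnitAddCircle) = γ * tan_h m φ := by
    intro φ
    rw [tan_H_coe]
    field_simp
  have hbd : ∀ t : UnitAddCircle, |tan_H m hm0 c0 t| ≤ 1 := by
    intro t
    induction t using QuotientAddGroup.induction_on with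
    | H φ =>
      have e := tan_H_coe m hm0 c0 φ
      refine (congrArg abs e).le.trans ?_
      rw [abs_div, abs_of_pos hc, div_le_one hc]
      exact hb φ
  refine ⟨tan_H m hm0 c0, γ * c0, ⟨hbd, fun a => ?_⟩, ?_, by positivity, ?_, ?_⟩
  · refine Set.Countable.measure_zero ((tan_level m (a * c0) hm0).mono ?_) _
    rintro φ ⟨-, hφ⟩
    rw [tan_H_coe, div_eq_iff hc.ne'] at hφ
    exact hφ
  · set L : ℝ := (2 * Real.pi / m + 2 * Real.pi / m ^ 2) / c0 with hL
    have hL0 : 0 < L := by positivity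
    refine ⟨L + 2, fun s t => ?_⟩
    rcases eq_or_ne s t with rfl | hne
    · simp
    have hst : 0 < |s - t| := abs_pos.2 (sub_ne_zero.2 hne)
    rcases le_total |s - t| 1 with h | h
    · have e1 : |s - t| ≤ |s - t| ^ (2 / 3 : ℝ) := by
        have := Real.rpow_le_rpow_of_exponent_ge hst h (by norm_num : (2 / 3 : ℝ) ≤ 1)
        rwa [Real.rpow_one] at this
      rw [tan_H_coe, tan_H_coe, ← sub_div, abs_div, abs_of_pos hc]
      have e2 := tan_lip m hm0 s t
      calc |tan_h m s - tan_h m t| / c0 ≤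
            (2 * Real.pi / m + 2 * Real.pi / m ^ 2) * |s - t| / c0 := by gcongr
        _ = L * |s - t| := by rw [hL]; ring
        _ ≤ (L + 2) * |s - t| ^ (2 / 3 : ℝ) := by gcongr; linarith
    · have e1 : (1 : ℝ) ≤ |s - t| ^ (2 / 3 : ℝ) := Real.one_le_rpow h (by norm_num)
      have e2 := hbd (s : UnitAddCircle)
      have e3 := hbd (t : UnitAddCircle)
      have e4 : |tan_H m hm0 c0 (s : UnitAddCircle) - tan_H m hm0 c0 (t : UnitAddCircle)| ≤ 2 := by
        rw [abs_le] at e2 e3 ⊢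
        constructor <;> linarith
      calc _ ≤ (2 : ℝ) := e4
        _ ≤ (L + 2) * 1 := by linarith
        _ ≤ (L + 2) * |s - t| ^ (2 / 3 : ℝ) := by gcongr
  · intro φ h2 h3
    rw [hmul, tan_h_mid hσ (tan_sin_le h0.le h2 h3)]
  · intro p hp hp2
    simp only [hmul]
    exact (tan_int hγ h0 h1 hp).trans (tan_num hγ hτ hp hp2)

end

end Pool.Agent.Y663.W5
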