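import Pool.Agent.Y663.W5.Law
import Pool.Agent.Y663.W5.N5
import Pool.Agent.Y663.W5.Circ
import Pool.Agent.Y663.W5.Tan
import Pool.Agent.Y663.W5.Size

/-!
Purely absolutely continuous spectrum at arbitrary disorder: uniform laws and coins.
-/

set_option autoImplicit false

namespace Pool.Agent.Y663.W5

open MeasureTheory Filter Pool.Agent.W792.LL Pool.Agent.W792.WA
open scoped Topology

noncomputable section

theorem f5_all : S_F5 := f5 (n5 circ tan5 size5)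

/-- the form used below: `L^p`-small functions, small and decaying amplitudes -/
theorem core (d : ℕ) (hd : 0 < d) (R p κ ε : ℝ) (hR : 0 < R) (hp1 : 1 < p) (hp2 : p < 2)
    (hκ : 0 < κ) (hε : 0 < ε) :
    ∃ g : C(ℝ, ℝ), (∃ B : ℝ, ∀ t, |g t| ≤ B) ∧
      (∫ k : UnitAddTorus (Fin d), |g (lap d k)| ^ p ≤ ε) ∧
      (∀ x : Fin d → ℤ, ‖UnitAddTorus.mFourierCoeff (fun k : UnitAddTorus (Fin d) =>
        ((g (lap d k) : ℝ) : ℂ)) x‖ ≤ ε) ∧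
      (∃ C : ℝ, ∀ x : Fin d → ℤ, ‖UnitAddTorus.mFourierCoeff (fun k : UnitAddTorus (Fin d) =>
        ((g (lap d k) : ℝ) : ℂ)) x‖ ≤ C / (1 + ‖x‖) ^ ((d : ℝ) / 3)) ∧
    ∀ (ν : Measure ℝ) [IsProbabilityMeasure ν], κ ≤ vr ν →
      ∀ᵐ v ∂(Pn ν (Fin d → ℤ)), ACIK (lap d + gK g d) 1 v (-R) R := by
  have hε' : 0 < min ε ((ε / 2) ^ p) := lt_min hε (by positivity)
  obtain ⟨g, hB, hC, hI, h⟩ := f5_all d (lap d) (-R) R p κ _ hd (by linarith) hp1 hp2 hκ hε'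
  exact ⟨g, hB, hI.trans (min_le_left _ _), amp_small g hp1 hε (hI.trans (min_le_right _ _)), hC, h⟩

theorem unif_ac (d : ℕ) (hd : 0 < d) (c₁ c₂ R p ε : ℝ) (h1 : 0 < c₁) (h12 : c₁ ≤ c₂) (hR : 0 < R)
    (hp1 : 1 < p) (hp2 : p < 2) (hε : 0 < ε) :
    ∃ g : C(ℝ, ℝ), (∃ B : ℝ, ∀ t, |g t| ≤ B) ∧
      (∫ k : UnitAddTorus (Fin d), |g (lap d k)| ^ p ≤ ε) ∧
      (∀ x : Fin d → ℤ, ‖UnitAddTorus.mFourierCoeff (fun k : UnitAddTorus (Fin d) =>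
        ((g (lap d k) : ℝ) : ℂ)) x‖ ≤ ε) ∧
      (∃ C : ℝ, ∀ x : Fin d → ℤ, ‖UnitAddTorus.mFourierCoeff (fun k : UnitAddTorus (Fin d) =>
        ((g (lap d k) : ℝ) : ℂ)) x‖ ≤ C / (1 + ‖x‖) ^ ((d : ℝ) / 3)) ∧
    ∀ c : ℝ, c₁ ≤ c → c ≤ c₂ →
      ∀ᵐ v ∂(Measure.infinitePi fun _ : Fin d → ℤ => unif c),
        (∀ x, |v x| ≤ c) ∧ ACIK (lap d + gK g d) 1 v (-R) R := by
  obtain ⟨κ, hκ, hv⟩ := unif_vr h1 h12
  obtain ⟨g, hB, hI, hA, hC, h⟩ := core d hd R p κ ε hR hp1 hp2 hκ hε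
  refine ⟨g, hB, hI, hA, hC, fun c hc1 hc2 => ?_⟩
  have := unif_prob (h1.trans_le hc1)
  have h3 := h (unif c) (hv c hc1 hc2)
  have h4 : ∀ᵐ v ∂(Measure.infinitePi fun _ : Fin d → ℤ => unif c), ∀ x, |v x| ≤ c :=
    WA.all_sites (unif_bd c)
  filter_upwards [h3, h4] with v h5 h6
  exact ⟨h6, h5⟩

theorem coin_ac (d : ℕ) (hd : 0 < d) (δ R p ε : ℝ) (hδ : 0 < δ) (hR : 0 < R)
    (hp1 : 1 < p) (hp2 : p < 2) (hε : 0 < ε) :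
    ∃ g : C(ℝ, ℝ), (∃ B : ℝ, ∀ t, |g t| ≤ B) ∧
      (∫ k : UnitAddTorus (Fin d), |g (lap d k)| ^ p ≤ ε) ∧
      (∀ x : Fin d → ℤ, ‖UnitAddTorus.mFourierCoeff (fun k : UnitAddTorus (Fin d) =>
        ((g (lap d k) : ℝ) : ℂ)) x‖ ≤ ε) ∧
      (∃ C : ℝ, ∀ x : Fin d → ℤ, ‖UnitAddTorus.mFourierCoeff (fun k : UnitAddTorus (Fin d) =>
        ((g (lap d k) : ℝ) : ℂ)) x‖ ≤ C / (1 + ‖x‖) ^ ((d : ℝ) / 3)) ∧
    ∀ (β : Measure Bool) [IsProbabilityMeasure β], δ ≤ β.real {true} → δ ≤ β.real {false} →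
      ∀ᵐ ω ∂(Measure.infinitePi fun _ : Fin d → ℤ => β),
        ACIK (lap d + gK g d) 1 (fun x => WA.sg (ω x)) (-R) R := by
  obtain ⟨g, hB, hI, hA, hC, h⟩ := core d hd R p (min δ (1 / 2)) ε hR hp1 hp2
    (lt_min hδ (by norm_num)) hε
  refine ⟨g, hB, hI, hA, hC, fun β _ hβ1 hβ2 => ?_⟩
  have : IsProbabilityMeasure (β.map WA.sg) :=
    Measure.isProbabilityMeasure_map WA.sg_meas.aemeasurable
  have h3 := h (β.map WA.sg) (coin_vr (lt_min hδ (by norm_num)) (min_le_right _ _) β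
    ((min_le_left _ _).trans hβ1) ((min_le_left _ _).trans hβ2))
  exact WA.ae_coin β h3

end

end Pool.Agent.Y663.W5
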