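import Pool.Agent.Y663.W5.Stm2
import Pool.Agent.W792.WA.G9
import Pool.Agent.W191.LL.Avg0

/-!
Small hopping amplitudes; lower bounds for the variance of the Cayley transform.
-/

set_option autoImplicit false

namespace Pool.Agent.Y663.W5

open MeasureTheory Filter Pool.Agent.W792.LL Pool.Agent.W792.WA
open scoped Topology

noncomputable section

theorem vol_one (d : ℕ) : (volume : Measure (UnitAddTorus (Fin d))) Set.univ = 1 := by
  rw [volume_pi, Measure.pi_univ]
  refine Finset.prod_eq_one fun i _ => ?_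
  exact UnitAddCircle.measure_univ

theorem norm_mfc_le {d : ℕ} (f : UnitAddTorus (Fin d) → ℂ) (x : Fin d → ℤ) :
    ‖UnitAddTorus.mFourierCoeff f x‖ ≤ ∫ k, ‖f k‖ := by
  have hv : (volume : Measure (UnitAddTorus (Fin d))) = Pool.Agent.W191.LL.mu d := by
    rw [volume_pi]
    unfold Pool.Agent.W191.LL.mu
    congr 1
    funext i
    rw [AddCircle.volume_eq_smul_haarAddCircle]
    simp
  rw [Pool.Agent.W191.LL.mfc_eq, ← hv]
  refine (norm_integral_le_integral_norm _).trans (le_of_eq ?_)
  refine integral_congr_ae (ae_of_all _ fun k => ?_)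
  simp only
  rw [norm_mul]
  have h1 : ‖(UnitAddTorus.mFourier (-x)) k‖ = 1 := by
    unfold UnitAddTorus.mFourier
    simp only [ContinuousMap.coe_mk, norm_prod]
    refine Finset.prod_eq_one fun i _ => ?_
    rw [fourier_apply]
    exact Circle.norm_coe _
  rw [h1, one_mul]

theorem abs_le_rpow {a δ p : ℝ} (ha : 0 ≤ a) (hδ : 0 < δ) (hp : 1 < p) :
    a ≤ δ + δ ^ (1 - p) * a ^ p := by
  rcases le_or_gt a δ with h | h
  · have : 0 ≤ δ ^ (1 - p) * a ^ p := by positivity
    linarith
  · have ha0 : 0 < a := hδ.trans h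
    have h1 : a ^ (1 - p) ≤ δ ^ (1 - p) := by
      refine Real.rpow_le_rpow_of_nonpos hδ h.le (by linarith)
    have h2 : a = a ^ (1 - p) * a ^ p := by
      rw [← Real.rpow_add ha0]
      simp
    have h3 : a ^ (1 - p) * a ^ p ≤ δ ^ (1 - p) * a ^ p := by gcongr
    linarith

theorem amp_small {d : ℕ} (g : C(ℝ, ℝ)) {p ε : ℝ} (hp : 1 < p) (hε : 0 < ε)
    (h : ∫ k : UnitAddTorus (Fin d), |g (lap d k)| ^ p ≤ (ε / 2) ^ p) (x : Fin d → ℤ) :
    ‖UnitAddTorus.mFourierCoeff (fun k : UnitAddTorus (Fin d) => ((g (lap d k) : ℝ) : ℂ)) x‖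
      ≤ ε := by
  refine (norm_mfc_le _ x).trans ?_
  have hc1 : Continuous fun k : UnitAddTorus (Fin d) => g (lap d k) :=
    g.continuous.comp (lap d).continuous
  have i1 : Integrable fun k : UnitAddTorus (Fin d) => |g (lap d k)| ^ p := by
    have : Continuous fun k : UnitAddTorus (Fin d) => |g (lap d k)| ^ p :=
      hc1.abs.rpow_const fun _ => Or.inr (by linarith)
    exact this.integrable_of_hasCompactSupport (HasCompactSupport.of_compactSpace _)
  calc ∫ k : UnitAddTorus (Fin d), ‖((g (lap d k) : ℝ) : ℂ)‖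
      ≤ ∫ k : UnitAddTorus (Fin d), (ε / 2 + (ε / 2) ^ (1 - p) * |g (lap d k)| ^ p) := by
        refine integral_mono ?_ ((integrable_const _).add (i1.const_mul _)) fun k => ?_
        · have : Continuous fun k : UnitAddTorus (Fin d) => ‖((g (lap d k) : ℝ) : ℂ)‖ := by
            fun_prop
          exact this.integrable_of_hasCompactSupport (HasCompactSupport.of_compactSpace _)
        · simp only
          rw [Complex.norm_real, Real.norm_eq_abs]
          exact abs_le_rpow (abs_nonneg _) (half_pos hε) hp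
    _ = ε / 2 + (ε / 2) ^ (1 - p) * ∫ k : UnitAddTorus (Fin d), |g (lap d k)| ^ p := by
        rw [integral_add (integrable_const _) (i1.const_mul _), integral_const_mul,
          integral_const, Measure.real, vol_one]
        simp
    _ ≤ ε / 2 + (ε / 2) ^ (1 - p) * (ε / 2) ^ p := by gcongr
    _ = ε := by
        rw [← Real.rpow_add (half_pos hε)]
        simp

end

end Pool.Agent.Y663.W5
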