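import Pool.Agent.Y663.W5.Stm2
import Pool.Agent.W338.WA.Aff
import Pool.Agent.W335.LLCay

/-!
# Affine change of the energy, scaling of the law (S_N5 → S_F5)

Written by helper67 for project W5 of helper663.
-/

set_option autoImplicit false

namespace Pool.Agent.Y663.W5

open MeasureTheory Filter Pool.Agent.W792.LL Pool.Agent.W792.WA
open scoped Topology

theorem f5_ne (x : ℝ) : (x : ℂ) - Complex.I ≠ 0 := by
  intro h
  have := congrArg Complex.im h
  simp at this

theorem f5_nsq (x : ℝ) : ‖(x : ℂ) - Complex.I‖ ^ 2 = 1 + x ^ 2 := by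
  rw [Complex.sq_norm, Complex.normSq_apply]
  simp
  ring

theorem f5_cay_sub (x y : ℝ) :
    ‖cay x - cay y‖ ^ 2 = 4 * (x - y) ^ 2 / ((1 + x ^ 2) * (1 + y ^ 2)) := by
  have hx := f5_ne x
  have hy := f5_ne y
  have h : cay x - cay y = (-2 * Complex.I * ((x - y : ℝ) : ℂ)) /
      (((x : ℂ) - Complex.I) * ((y : ℂ) - Complex.I)) := by
    unfold cay
    rw [div_sub_div _ _ hx hy]
    congr 1
    push_cast
    ring
  rw [h, norm_div, div_pow, norm_mul, norm_mul, norm_mul, mul_pow, mul_pow, mul_pow, f5_nsq, f5_nsq,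
    Complex.norm_real, Real.norm_eq_abs, sq_abs, Complex.norm_I, norm_neg]
  norm_num

theorem f5_pt (α : ℝ) (hα : 0 < α) (x y : ℝ) :
    min (α ^ 2) (1 / α ^ 2) * ‖cay x - cay y‖ ^ 2 ≤ ‖cay (α * x) - cay (α * y)‖ ^ 2 := by
  rw [f5_cay_sub, f5_cay_sub]
  have hx : 0 < 1 + x ^ 2 := by positivity
  have hy : 0 < 1 + y ^ 2 := by positivity
  have hx' : 0 < 1 + (α * x) ^ 2 := by positivity
  have hy' : 0 < 1 + (α * y) ^ 2 := by positivity
  have hk0 : 0 ≤ min (α ^ 2) (1 / α ^ 2) := le_min (by positivity) (by positivity)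
  have key : min (α ^ 2) (1 / α ^ 2) * ((1 + (α * x) ^ 2) * (1 + (α * y) ^ 2)) ≤
      α ^ 2 * ((1 + x ^ 2) * (1 + y ^ 2)) := by
    rcases le_total α 1 with h | h
    · have h1 : α ^ 2 ≤ 1 := by nlinarith
      have e1 : 1 + (α * x) ^ 2 ≤ 1 + x ^ 2 := by
        rw [mul_pow]
        nlinarith [sq_nonneg x]
      have e2 : 1 + (α * y) ^ 2 ≤ 1 + y ^ 2 := by
        rw [mul_pow]
        nlinarith [sq_nonneg y]
      exact mul_le_mul (min_le_left _ _) (mul_le_mul e1 e2 hy'.le hx.le) (by positivity)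
        (by positivity)
    · have h1 : 1 ≤ α ^ 2 := by nlinarith
      have e1 : 1 + (α * x) ^ 2 ≤ α ^ 2 * (1 + x ^ 2) := by
        rw [mul_pow]
        nlinarith [sq_nonneg x]
      have e2 : 1 + (α * y) ^ 2 ≤ α ^ 2 * (1 + y ^ 2) := by
        rw [mul_pow]
        nlinarith [sq_nonneg y]
      calc min (α ^ 2) (1 / α ^ 2) * ((1 + (α * x) ^ 2) * (1 + (α * y) ^ 2))
          ≤ (1 / α ^ 2) * ((α ^ 2 * (1 + x ^ 2)) * (α ^ 2 * (1 + y ^ 2))) :=
            mul_le_mul (min_le_right _ _) (mul_le_mul e1 e2 hy'.le (by positivity)) (by positivity)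
              (by positivity)
        _ = α ^ 2 * ((1 + x ^ 2) * (1 + y ^ 2)) := by
            field_simp
  have hs : (α * x - α * y) ^ 2 = α ^ 2 * (x - y) ^ 2 := by ring
  rw [hs, ← mul_div_assoc, div_le_div_iff₀ (by positivity) (by positivity)]
  have h4 : 0 ≤ 4 * (x - y) ^ 2 := by positivity
  nlinarith [mul_le_mul_of_nonneg_left key h4]

section var

variable {ν : Measure ℝ} [IsProbabilityMeasure ν] {c : ℝ → ℂ}

theorem f5_int (hc : Continuous c) (h1 : ∀ x, ‖c x‖ = 1) : Integrable c ν := by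
  refine Integrable.of_bound hc.aestronglyMeasurable 1 (Eventually.of_forall fun x => ?_)
  rw [h1]

theorem f5_int_re (hc : Continuous c) (h1 : ∀ x, ‖c x‖ = 1) (w : ℂ) :
    Integrable (fun x => 2 - 2 * (w * (starRingEnd ℂ) (c x)).re) ν := by
  refine Integrable.sub (integrable_const _) (Integrable.const_mul ?_ 2)
  have h2 : Integrable (fun x => w * (starRingEnd ℂ) (c x)) ν := by
    refine Integrable.of_bound (by fun_prop) ‖w‖ (Eventually.of_forall fun x => ?_)
    rw [norm_mul, RCLike.norm_conj, h1, mul_one]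
  exact h2.re

theorem f5_sq (h1 : ∀ x, ‖c x‖ = 1) (x y : ℝ) :
    ‖c x - c y‖ ^ 2 = 2 - 2 * (c x * (starRingEnd ℂ) (c y)).re := by
  have hx := h1 x
  have hy := h1 y
  have hx2 : (c x).re * (c x).re + (c x).im * (c x).im = 1 := by
    have := Complex.sq_norm (c x)
    rw [hx, Complex.normSq_apply] at this
    linarith
  have hy2 : (c y).re * (c y).re + (c y).im * (c y).im = 1 := by
    have := Complex.sq_norm (c y)
    rw [hy, Complex.normSq_apply] at this
    linarith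
  rw [Complex.sq_norm, Complex.normSq_apply]
  simp only [Complex.sub_re, Complex.sub_im, Complex.mul_re, Complex.conj_re, Complex.conj_im]
  nlinarith

theorem f5_mean (hc : Continuous c) (h1 : ∀ x, ‖c x‖ = 1) (w : ℂ) :
    ∫ x, (2 - 2 * (w * (starRingEnd ℂ) (c x)).re) ∂ν =
      2 - 2 * (w * (starRingEnd ℂ) (∫ x, c x ∂ν)).re := by
  have h2 : Integrable (fun x => w * (starRingEnd ℂ) (c x)) ν := by
    refine Integrable.of_bound (by fun_prop) ‖w‖ (Eventually.of_forall fun x => ?_)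
    rw [norm_mul, RCLike.norm_conj, h1, mul_one]
  have h4 : Integrable (fun x => (w * (starRingEnd ℂ) (c x)).re) ν := h2.re
  rw [integral_sub (integrable_const _) (h4.const_mul 2), integral_const_mul]
  have h3 : ∫ x, (w * (starRingEnd ℂ) (c x)).re ∂ν = (∫ x, w * (starRingEnd ℂ) (c x) ∂ν).re :=
    integral_re h2
  rw [h3, integral_const_mul, integral_conj]
  simp

theorem f5_var_le {c' : ℝ → ℂ} (hc : Continuous c) (h1 : ∀ x, ‖c x‖ = 1) (hc' : Continuous c')
    (h1' : ∀ x, ‖c' x‖ = 1) (k : ℝ) (hk : ∀ x y, k * ‖c x - c y‖ ^ 2 ≤ ‖c' x - c' y‖ ^ 2) :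
    k * (1 - ‖∫ x, c x ∂ν‖ ^ 2) ≤ 1 - ‖∫ x, c' x ∂ν‖ ^ 2 := by
  have hA : ∀ x, k * (2 - 2 * (c x * (starRingEnd ℂ) (∫ y, c y ∂ν)).re) ≤
      2 - 2 * (c' x * (starRingEnd ℂ) (∫ y, c' y ∂ν)).re := by
    intro x
    rw [← f5_mean hc h1, ← f5_mean hc' h1', ← integral_const_mul]
    refine integral_mono ((f5_int_re hc h1 _).const_mul k) (f5_int_re hc' h1' _) fun y => ?_
    have := hk x y
    rw [f5_sq h1, f5_sq h1'] at this
    exact this
  have hcomm : ∀ (c : ℝ → ℂ) (x : ℝ) (m : ℂ), (c x * (starRingEnd ℂ) m).re =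
      (m * (starRingEnd ℂ) (c x)).re := by
    intro c x m
    simp only [Complex.mul_re, Complex.conj_re, Complex.conj_im]
    ring
  have hB : k * (2 - 2 * ((∫ y, c y ∂ν) * (starRingEnd ℂ) (∫ y, c y ∂ν)).re) ≤
      2 - 2 * ((∫ y, c' y ∂ν) * (starRingEnd ℂ) (∫ y, c' y ∂ν)).re := by
    have e1 := f5_mean (ν := ν) hc h1 (∫ y, c y ∂ν)
    have e2 := f5_mean (ν := ν) hc' h1' (∫ y, c' y ∂ν)
    rw [← e1, ← e2, ← integral_const_mul]
    refine integral_mono ((f5_int_re hc h1 _).const_mul k) (f5_int_re hc' h1' _) fun x => ?_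
    have := hA x
    rw [hcomm c, hcomm c'] at this
    exact this
  have hn : ∀ m : ℂ, (m * (starRingEnd ℂ) m).re = ‖m‖ ^ 2 := by
    intro m
    rw [Complex.mul_conj, Complex.ofReal_re, Complex.normSq_eq_norm_sq]
  rw [hn, hn] at hB
  nlinarith

end var

/-- Scaling of `vr`. -/
theorem f5_vrs : S_VRS := by
  intro ν _ α hα
  obtain ⟨hn, hcont, -, -⟩ := Pool.Agent.W335.LLCay.main
  unfold vr
  have hm : ∫ x, cay x ∂(ν.map fun x => α * x) = ∫ x, cay (α * x) ∂ν := by
    rw [integral_map (by fun_prop) hcont.aestronglyMeasurable]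
  rw [hm]
  exact f5_var_le (c := cay) (c' := fun x => cay (α * x)) hcont hn
    (hcont.comp (by fun_prop)) (fun x => hn _) _ fun x y => f5_pt α hα x y

theorem f5 : S_N5 → S_F5 := by
  intro hN d K a b p κ ε hd hab hp1 hp2 hκ hε
  have hba : 0 < b - a := by linarith
  have hd0 : (0 : ℝ) < d := by exact_mod_cast hd
  set α : ℝ := 4 * d / (b - a) with hα
  have hα0 : 0 < α := by positivity
  have hmin : 0 < min (α ^ 2) (1 / α ^ 2) := lt_min (by positivity) (by positivity)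
  obtain ⟨g', ⟨B, hB⟩, ⟨C, hC⟩, hint, hmain⟩ := hN d (α • (K - ContinuousMap.const _ a)) p
    (min (α ^ 2) (1 / α ^ 2) * κ) (α ^ p * ε) hd hp1 hp2 (by positivity)
    (mul_pos (Real.rpow_pos_of_pos hα0 p) hε)
  refine ⟨α⁻¹ • g', ⟨α⁻¹ * B, fun t => ?_⟩, ⟨α⁻¹ * C, fun x => ?_⟩, ?_, ?_⟩
  · rw [ContinuousMap.smul_apply, smul_eq_mul, abs_mul, abs_of_pos (inv_pos.mpr hα0)]
    exact mul_le_mul_of_nonneg_left (hB t) (inv_pos.mpr hα0).le
  · have e : UnitAddTorus.mFourierCoeff (fun k : UnitAddTorus (Fin d) =>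
        (((α⁻¹ • g') (lap d k) : ℝ) : ℂ)) x = ((α⁻¹ : ℝ) : ℂ) *
        UnitAddTorus.mFourierCoeff (fun k : UnitAddTorus (Fin d) => ((g' (lap d k) : ℝ) : ℂ)) x := by
      unfold UnitAddTorus.mFourierCoeff
      rw [← integral_const_mul]
      congr 1
      funext k
      change (UnitAddTorus.mFourier (-x)) k * (((α⁻¹ * g' (lap d k)) : ℝ) : ℂ) =
        ((α⁻¹ : ℝ) : ℂ) * ((UnitAddTorus.mFourier (-x)) k * ((g' (lap d k) : ℝ) : ℂ))
      push_cast
      ring
    rw [e, norm_mul, Complex.norm_real, Real.norm_eq_abs, abs_of_pos (inv_pos.mpr hα0),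
      mul_div_assoc]
    exact mul_le_mul_of_nonneg_left (hC x) (inv_pos.mpr hα0).le
  · have e : ∀ k : UnitAddTorus (Fin d), |(α⁻¹ • g') (lap d k)| ^ p =
        (α ^ p)⁻¹ * |g' (lap d k)| ^ p := by
      intro k
      rw [ContinuousMap.smul_apply, smul_eq_mul, abs_mul, abs_of_pos (inv_pos.mpr hα0),
        Real.mul_rpow (inv_pos.mpr hα0).le (abs_nonneg _), Real.inv_rpow hα0.le]
    rw [integral_congr_ae (Eventually.of_forall e), integral_const_mul]
    have hpos : 0 < α ^ p := Real.rpow_pos_of_pos hα0 p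
    calc (α ^ p)⁻¹ * ∫ k : UnitAddTorus (Fin d), |g' (lap d k)| ^ p
        ≤ (α ^ p)⁻¹ * (α ^ p * ε) := mul_le_mul_of_nonneg_left hint (inv_pos.mpr hpos).le
      _ = ε := by
          field_simp
  · intro ν _ hκν
    have hkey : (α • (K - ContinuousMap.const _ a) + gK g' d : C(UnitAddTorus (Fin d), ℝ)) =
        α • ((K + gK (α⁻¹ • g') d) - ContinuousMap.const _ a) := by
      ext k
      simp only [ContinuousMap.add_apply, ContinuousMap.smul_apply, ContinuousMap.sub_apply,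
        ContinuousMap.const_apply, smul_eq_mul, gK, ContinuousMap.comp_apply]
      field_simp
      ring
    have hle : min (α ^ 2) (1 / α ^ 2) * κ ≤ vr (ν.map fun x => α * x) :=
      (mul_le_mul_of_nonneg_left hκν hmin.le).trans (f5_vrs ν α hα0)
    filter_upwards [hmain ν α hα0 hle] with v hv
    rw [hkey] at hv
    have h3 := Pool.Agent.W338.WA.Aff.main d (K + gK (α⁻¹ • g') d) α a 1 0 (4 * d) v hα0 (by
      rw [mul_one]
      exact hv)
    have h4 : a + 0 / α = a := by simp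
    have h5 : a + 4 * d / α = b := by
      rw [hα]
      field_simp
      ring
    rw [h4, h5] at h3
    exact h3

end Pool.Agent.Y663.W5
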