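import Pool.Agent.Y663.W5.Lev5

/-!
The first level gives a gap, uniformly in the law and the kinetic energy.
-/

set_option autoImplicit false

namespace Pool.Agent.Y663.W5

open MeasureTheory Filter Pool.Agent.W792.LL Pool.Agent.W792.WA
open scoped Topology

noncomputable section

namespace Lv5

/-- choice of the width -/
theorem exists_width {A ε r : ℝ} (hA : 0 < A) (hε : 0 < ε) (hr : 0 < r) :
    ∃ γ : ℝ, 0 < γ ∧ γ ≤ 1 ∧ A * γ ^ r ≤ ε := by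
  refine ⟨min 1 ((ε / A) ^ (1 / r)), lt_min one_pos (by positivity), min_le_left _ _, ?_⟩
  have h0 : 0 ≤ min 1 ((ε / A) ^ (1 / r)) := (lt_min one_pos (by positivity)).le
  have h1 : (min 1 ((ε / A) ^ (1 / r))) ^ r ≤ ε / A := by
    calc (min 1 ((ε / A) ^ (1 / r))) ^ r ≤ ((ε / A) ^ (1 / r)) ^ r :=
          Real.rpow_le_rpow h0 (min_le_right _ _) hr.le
      _ = ε / A := by
        rw [← Real.rpow_mul (by positivity), one_div_mul_cancel hr.ne', Real.rpow_one]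
  calc A * (min 1 ((ε / A) ^ (1 / r))) ^ r ≤ A * (ε / A) := by gcongr
    _ = ε := by field_simp

end Lv5

open Lv5

theorem lev5 (hC : S_CIRC) (hT : S_TAN5) : S_LEV5 := by
  intro p κ D ε hp1 hp2 hκ hκ1 hε
  obtain ⟨D1, hD1⟩ : ∃ D1, D1 = |D| + 1 := ⟨_, rfl⟩
  have hD0 : 1 ≤ D1 := by
    rw [hD1]
    have := abs_nonneg D
    linarith
  obtain ⟨c, hc⟩ : ∃ c, c = 2 / (D1 + 2) ^ 2 := ⟨_, rfl⟩
  have hc0 : 0 < c := by
    rw [hc]
    positivity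
  have hc1 : c ≤ 1 / 2 := by
    rw [hc, div_le_iff₀ (by positivity)]
    nlinarith
  obtain ⟨c1, hc1'⟩ : ∃ c1, c1 = c ^ 2 * κ / 512 := ⟨_, rfl⟩
  have hc10 : 0 < c1 := by
    rw [hc1']
    positivity
  obtain ⟨A, hA⟩ : ∃ A, A = 4 * c1 ^ (1 - p) / (p - 1) := ⟨_, rfl⟩
  have hA0 : 0 < A := by
    rw [hA]
    have : 0 < p - 1 := by linarith
    positivity
  obtain ⟨γ, hγ0, hγ1, hγ⟩ := exists_width hA0 hε (r := 2 - p) (by linarith)
  obtain ⟨η, hη⟩ : ∃ η, η = c * γ * κ / 16 := ⟨_, rfl⟩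
  obtain ⟨τ, hτ⟩ : ∃ τ, τ = c * γ * η / 32 := ⟨_, rfl⟩
  have hcγ : 0 < c * γ := by positivity
  have hcγ1 : c * γ ≤ 1 / 2 := by nlinarith
  have hη0 : 0 < η := by
    rw [hη]
    positivity
  have hη1 : η ≤ 1 / 32 := by
    rw [hη]
    nlinarith
  have hτ0 : 0 < τ := by
    rw [hτ]
    positivity
  have hτ1 : τ ≤ 1 / 2 := by
    rw [hτ]
    nlinarith
  have hτη : 16 * τ / η = c * γ / 2 := by
    rw [hτ]
    field_simp
    ring
  have hδ : 2 * τ / η ≤ 1 / 4 := by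
    have : 2 * τ / η = (16 * τ / η) / 8 := by ring
    rw [this, hτη]
    linarith
  have hτc : τ = c1 * γ ^ (2 : ℝ) := by
    rw [hτ, hη, hc1']
    norm_num
    ring
  obtain ⟨ψ, R, h1, h2, h3, h4, h5⟩ := hT γ τ hγ0 hτ0 hτ1
  refine ⟨ψ, R, η, 1 - c * γ / 2, h1, h2, h3, hη0, by linarith, by linarith, by linarith, ?_, ?_,
    ?_⟩
  · rw [hη]
    have h6 : c * γ / 2 ≤ 1 - (1 - c * γ / 2) ^ 2 := by nlinarith
    have h7 : c * γ / 2 * κ ≤ (1 - (1 - c * γ / 2) ^ 2) * κ := by gcongr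
    linarith
  · refine (h5 p hp1 hp2).trans (le_trans (le_of_eq ?_) hγ)
    rw [hA, hτc, Real.mul_rpow hc10.le (by positivity), ← Real.rpow_mul hγ0.le]
    have h6 : γ ^ p * γ ^ (2 * (1 - p)) = γ ^ (2 - p) := by
      rw [← Real.rpow_add hγ0]
      congr 1
      ring
    have h7 : 4 * γ ^ p * (c1 ^ (1 - p) * γ ^ (2 * (1 - p))) / (p - 1) =
        4 * c1 ^ (1 - p) / (p - 1) * (γ ^ p * γ ^ (2 * (1 - p))) := by ring
    rw [h7, h6]
  · intro ρ' _ hρ' x s hx hxim hs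
    have h6 := absorb hC (D1 := D1) hγ0 hγ1 hτ0 hτ1 hη0 hδ h4 ρ' hρ' (x := x) (s := s) (by
      rw [hD1]
      have := le_abs_self D
      linarith) hxim hs
    rw [hτη, ← hc] at h6
    linarith

/-- The gap. -/
theorem gap5 (hL : S_LEV5) : S_GAP5 := by
  intro p κ D ε hp1 hp2 hκ hκ1 hε
  obtain ⟨ψ, R, η, q, h1, h2, h3, h4, h5, h6, h7, h8, h9, h10⟩ := hL p κ D ε hp1 hp2 hκ hκ1 hε
  refine ⟨ψ, R, η, h1, h2, h3, h4, h9, ?_⟩
  intro ν _ d K z ρ' _ hν hρ' hKz hz s hs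
  have hP := StepL.prob_lev ψ R
  have hX : S_CX := Al.cx
  obtain ⟨q', hq'0, hq'1, hq'⟩ := hX.2.2.1 (1 + R) D z.im hz
  have hxk : ∀ k, ‖(K k : ℂ) - z‖ ≤ D ∧ ((K k : ℂ) - z).im ≤ -z.im := by
    intro k
    constructor
    · refine (norm_sub_le _ _).trans ?_
      rw [Complex.norm_real]
      have := K.norm_coe_le_norm k
      linarith
    · simp
  have hρs : ((lev ψ R).conv ρ') (Set.Icc (-(1 + R)) (1 + R))ᶜ = 0 := StepL.conv_supp h1 h3 hρ'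
  have hw : ∀ k, ∀ a ∈ Set.Icc (-(1 + R)) (1 + R), ‖wz K z k a‖ ≤ q' := by
    intro k a ha
    exact hq' _ a (hxk k).1 (hxk k).2 (abs_le.2 ha)
  have hcont : Continuous (Function.uncurry (wz K z)) := hX.2.2.2 d K z hz.le
  have hvr : 0 < vr ν := lt_of_lt_of_le hκ hν
  obtain ⟨-, -, hF⟩ := Al.fix ν d ((lev ψ R).conv ρ') (1 + R) q' (wz K z) hvr hρs hcont hq'0 hq'1 hw
  have hZ : ∀ t ∈ {s : C(UnitAddTorus (Fin d), ℂ) | ‖s‖ ≤ 1 - η},
      psi ν (UU ((lev ψ R).conv ρ') (wz K z) t) ∈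
        {s : C(UnitAddTorus (Fin d), ℂ) | ‖s‖ ≤ 1 - η} := by
    intro t ht
    have ht' : ‖t‖ ≤ 1 - η := ht
    have ht1 : ‖t‖ ≤ 1 := by linarith
    have hqt : q' * ‖t‖ < 1 := by
      calc q' * ‖t‖ ≤ q' * 1 := by gcongr
        _ < 1 := by linarith
    obtain ⟨hU, -⟩ := Al.uuc d ((lev ψ R).conv ρ') (1 + R) q' (wz K z) t hρs hcont hq'0 hq'1.le hw
      ht1 hqt
    have hUq : ‖UU ((lev ψ R).conv ρ') (wz K z) t‖ ≤ q := by
      rw [ContinuousMap.norm_le _ h6]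
      intro k
      rw [hU k]
      refine h10 ρ' hρ' _ _ (hxk k).1 ?_ ((t.norm_coe_le_norm k).trans ht')
      have := (hxk k).2
      linarith
    have hpsi := (Al.psi ν d q (UU ((lev ψ R).conv ρ') (wz K z) t)
      (UU ((lev ψ R).conv ρ') (wz K z) t) h6 h7 hUq hUq).1
    change ‖psi ν (UU ((lev ψ R).conv ρ') (wz K z) t)‖ ≤ 1 - η
    rw [ContinuousMap.norm_le _ (by linarith)]
    intro k
    have h11 := (hpsi k).2.2.2.2.2
    refine abs_le_of_sq_le_sq' ?_ (by linarith) |>.2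
    have h12 : (1 - q ^ 2) * κ ≤ (1 - q ^ 2) * vr ν := by
      have : 0 ≤ 1 - q ^ 2 := by nlinarith
      gcongr
    nlinarith
  refine hF {s | ‖s‖ ≤ 1 - η} ?_ ⟨0, ?_⟩ ?_ hZ s hs
  · exact isClosed_le continuous_norm continuous_const
  · change ‖(0 : C(UnitAddTorus (Fin d), ℂ))‖ ≤ 1 - η
    rw [norm_zero]
    linarith
  · intro t ht
    have : ‖t‖ ≤ 1 - η := ht
    linarith

end

end Pool.Agent.Y663.W5
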