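import Pool.Agent.Y663.W5.F5
import Pool.Agent.Y663.W5.Amp
import Pool.Agent.Y663.WA.Bern

/-!
Lower bounds for the variance of the Cayley transform: coins and uniform laws; the operator
`-Δ + g(-Δ) + v` on functions.
-/

set_option autoImplicit false

namespace Pool.Agent.Y663.W5

open MeasureTheory Filter Pool.Agent.W792.LL Pool.Agent.W792.WA
open scoped Topology

noncomputable section

/-- the uniform law on `[-c, c]` -/
def unif (c : ℝ) : Measure ℝ := ENNReal.ofReal (1 / (2 * c)) • volume.restrict (Set.Icc (-c) c)

theorem unif_prob {c : ℝ} (hc : 0 < c) : IsProbabilityMeasure (unif c) := by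
  constructor
  unfold unif
  rw [Measure.smul_apply, Measure.restrict_apply_univ, Real.volume_Icc, smul_eq_mul,
    ← ENNReal.ofReal_mul (by positivity)]
  have : 1 / (2 * c) * (c - -c) = 1 := by
    field_simp
    ring
  rw [this, ENNReal.ofReal_one]

theorem unif_bd (c : ℝ) : ∀ᵐ s ∂(unif c), |s| ≤ c := by
  unfold unif
  refine Measure.ae_smul_measure ?_ _
  filter_upwards [ae_restrict_mem measurableSet_Icc] with s hs
  exact abs_le.2 hs

theorem unif_atom (c a : ℝ) : unif c {a} = 0 := by
  unfold unif
  rw [Measure.smul_apply]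
  have : (volume.restrict (Set.Icc (-c) c)) {a} = 0 := by
    refine le_antisymm ((Measure.restrict_apply_le _ _).trans ?_) zero_le
    simp
  rw [this, smul_zero]

theorem unif_map {c : ℝ} (hc : 0 < c) : (unif 1).map (fun x => c * x) = unif c := by
  ext S hS
  have hm : Measurable fun x : ℝ => c * x := measurable_const_mul c
  rw [Measure.map_apply hm hS]
  unfold unif
  rw [Measure.smul_apply, Measure.smul_apply, Measure.restrict_apply (hm hS),
    Measure.restrict_apply hS]
  have h1 : (fun x : ℝ => c * x) ⁻¹' S ∩ Set.Icc (-1) 1 =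
      (fun x : ℝ => c * x) ⁻¹' (S ∩ Set.Icc (-c) c) := by
    ext x
    simp only [Set.mem_inter_iff, Set.mem_preimage, Set.mem_Icc]
    refine and_congr_right fun _ => ?_
    constructor
    · rintro ⟨a1, a2⟩
      constructor <;> nlinarith
    · rintro ⟨a1, a2⟩
      constructor
      · by_contra h
        push Not at h
        nlinarith
      · by_contra h
        push Not at h
        nlinarith
  rw [h1, Real.volume_preimage_mul_left hc.ne', smul_eq_mul, smul_eq_mul, ← mul_assoc,
    ← ENNReal.ofReal_mul (by positivity)]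
  congr 2
  rw [abs_of_pos (by positivity)]
  field_simp

/-- one lower bound for all uniform laws of a compact range -/
theorem unif_vr {c₁ c₂ : ℝ} (h1 : 0 < c₁) (h12 : c₁ ≤ c₂) :
    ∃ κ : ℝ, 0 < κ ∧ ∀ c : ℝ, c₁ ≤ c → c ≤ c₂ → κ ≤ vr (unif c) := by
  have hP := unif_prob (c := 1) one_pos
  have hv : 0 < vr (unif 1) := by
    refine Ch.vr_pos Al.cay _ fun a => ?_
    rw [unif_atom]
    exact one_pos
  have h2 : 0 < c₂ := h1.trans_le h12
  refine ⟨min (c₁ ^ 2) (1 / c₂ ^ 2) * vr (unif 1), by positivity, fun c hc1 hc2 => ?_⟩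
  have hc : 0 < c := h1.trans_le hc1
  have h3 := f5_vrs (unif 1) c hc
  rw [unif_map hc] at h3
  refine le_trans ?_ h3
  refine mul_le_mul_of_nonneg_right (min_le_min ?_ ?_) hv.le
  · gcongr
  · gcongr

/-- variance of a coin -/
theorem coin_vr {δ : ℝ} (hδ : 0 < δ) (hδ1 : δ ≤ 1 / 2) (β : Measure Bool) [IsProbabilityMeasure β]
    (h1 : δ ≤ β.real {true}) (h2 : δ ≤ β.real {false}) : δ ≤ vr (β.map WA.sg) := by
  have hsum : β.real {true} + β.real {false} = 1 := by
    have h3 : ({true} : Set Bool)ᶜ = {false} := by
      ext b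
      cases b <;> simp
    have h4 := probReal_add_probReal_compl (μ := β) (s := {true}) (measurableSet_singleton _)
    rwa [h3] at h4
  have h3 : ∫ x, cay x ∂(β.map WA.sg) = (β.real {true} : ℂ) * cay 1 + (β.real {false} : ℂ) * cay (-1) := by
    rw [integral_map WA.sg_meas.aemeasurable (by
      have : Measurable cay := by
        unfold cay
        fun_prop
      exact this.aestronglyMeasurable)]
    rw [integral_fintype (Integrable.of_finite)]
    simp only [Fintype.univ_bool, Finset.mem_singleton, Bool.true_eq_false, not_false_eq_true,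
      Finset.sum_insert, Finset.sum_singleton]
    unfold WA.sg
    simp
  have c1 : cay 1 = Complex.I := by
    unfold cay
    have : ((1 : ℝ) : ℂ) - Complex.I ≠ 0 := by
      intro h0
      have := congrArg Complex.re h0
      simp at this
    rw [div_eq_iff this]
    push_cast
    linear_combination Complex.I_sq
  have c2 : cay (-1) = -Complex.I := by
    unfold cay
    have : ((-1 : ℝ) : ℂ) - Complex.I ≠ 0 := by
      intro h0
      have := congrArg Complex.re h0
      simp at this
    rw [div_eq_iff this]
    push_cast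
    linear_combination -Complex.I_sq
  unfold vr
  rw [h3, c1, c2]
  have h5 : (β.real {true} : ℂ) * Complex.I + (β.real {false} : ℂ) * -Complex.I =
      ((β.real {true} - β.real {false} : ℝ) : ℂ) * Complex.I := by
    push_cast
    ring
  rw [h5, norm_mul, Complex.norm_I, mul_one, Complex.norm_real, Real.norm_eq_abs, sq_abs]
  have h6 : β.real {true} = 1 - β.real {false} := by linarith
  rw [h6]
  have h7 : β.real {false} ≤ 1 - δ := by linarith
  nlinarith

end

end Pool.Agent.Y663.W5
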