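import Pool.Agent.Y663.W5.StepL
import Pool.Agent.Y663.W5.Stm
import Pool.Agent.W792.WA.All

/-!
Uniform absorption by the first level.
-/

set_option autoImplicit false

namespace Pool.Agent.Y663.W5

open MeasureTheory Filter Pool.Agent.W792.LL Pool.Agent.W792.WA
open scoped Topology

noncomputable section

namespace Lv5

/-- the integrand -/
def FF (x s : ℂ) (a : ℝ) : ℂ := cayx x a / (1 - cayx x a * s)

theorem cayx_add (x : ℂ) (a b : ℝ) : cayx x (a + b) = cayx (x + b) a := by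
  unfold cayx
  push_cast
  ring_nf

theorem cayx_shift (x : ℂ) (γ : ℝ) (b : ℝ) :
    cayx (x + b - γ * Complex.I) 0 = cayx (x - γ * Complex.I) b := by
  unfold cayx
  push_cast
  ring_nf

theorem FF_add (x s : ℂ) (a b : ℝ) : FF x s (a + b) = FF (x + b) s a := by
  unfold FF
  rw [cayx_add]

theorem FF_meas (x s : ℂ) : Measurable (FF x s) := by
  unfold FF cayx
  fun_prop

theorem FF_meas2 (x s : ℂ) : Measurable fun p : ℝ × ℝ => FF x s (p.1 + p.2) :=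
  (FF_meas x s).comp (measurable_fst.add measurable_snd)

/-- absorption of a shifted Cayley transform -/
theorem cay_abs {y : ℂ} {D1 γ : ℝ} (hy : ‖y‖ ≤ D1) (him : y.im ≤ 0) (hγ : 0 < γ) (hγ1 : γ ≤ 1) :
    ‖cayx (y - γ * Complex.I) 0‖ ≤ 1 - 2 / (D1 + 2) ^ 2 * γ := by
  have hD : 0 ≤ D1 := (norm_nonneg _).trans hy
  obtain ⟨Y, hY⟩ : ∃ Y : ℂ, Y = y - γ * Complex.I := ⟨_, rfl⟩
  have hYim : Y.im ≤ -γ := by
    rw [hY]
    simp
    exact him
  have hYn : ‖Y - Complex.I‖ ≤ D1 + 2 := by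
    calc ‖Y - Complex.I‖ ≤ ‖Y‖ + ‖Complex.I‖ := norm_sub_le _ _
      _ ≤ (‖y‖ + ‖(γ : ℂ) * Complex.I‖) + 1 := by
        rw [hY, Complex.norm_I]
        have := norm_sub_le y (γ * Complex.I)
        linarith
      _ ≤ D1 + 2 := by
        rw [norm_mul, Complex.norm_I, mul_one, Complex.norm_real, Real.norm_eq_abs,
          abs_of_pos hγ]
        linarith
  have hsq : ‖Y + Complex.I‖ ^ 2 = ‖Y - Complex.I‖ ^ 2 + 4 * Y.im := by
    rw [← Complex.normSq_eq_norm_sq, ← Complex.normSq_eq_norm_sq, Complex.normSq_apply,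
      Complex.normSq_apply]
    simp
    ring
  have hpos : 0 < ‖Y - Complex.I‖ := by
    rw [norm_pos_iff]
    intro h0
    have := congrArg Complex.im h0
    simp at this
    linarith
  have h1 : cayx (y - γ * Complex.I) 0 = (Y + Complex.I) / (Y - Complex.I) := by
    unfold cayx
    rw [hY]
    simp
  rw [h1, norm_div]
  obtain ⟨n, hn⟩ : ∃ n, n = ‖Y - Complex.I‖ := ⟨_, rfl⟩
  rw [← hn] at hpos hYn hsq ⊢
  have hE : 0 < (D1 + 2) ^ 2 := by positivity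
  have hc1 : 2 / (D1 + 2) ^ 2 * γ ≤ 1 := by
    rw [div_mul_eq_mul_div, div_le_one hE]
    nlinarith
  have hq0 : 0 ≤ 1 - 2 / (D1 + 2) ^ 2 * γ := by linarith
  rw [div_le_iff₀ hpos]
  refine abs_le_of_sq_le_sq' ?_ (by positivity) |>.2
  rw [hsq]
  have h2 : n ^ 2 ≤ (D1 + 2) ^ 2 := pow_le_pow_left₀ hpos.le hYn 2
  have h3 : 2 / (D1 + 2) ^ 2 * γ * n ^ 2 ≤ 2 * γ := by
    rw [div_mul_eq_mul_div, div_mul_eq_mul_div, div_le_iff₀ hE]
    nlinarith
  nlinarith [sq_nonneg (2 / (D1 + 2) ^ 2 * γ * n)]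

theorem one_sub_ge {w s : ℂ} {η : ℝ} (hw : ‖w‖ ≤ 1) (hs : ‖s‖ ≤ 1 - η) :
    η ≤ ‖1 - w * s‖ := by
  have h1 : ‖w * s‖ ≤ 1 - η := by
    rw [norm_mul]
    calc ‖w‖ * ‖s‖ ≤ 1 * ‖s‖ := by gcongr
      _ ≤ 1 - η := by linarith
  have h2 := norm_sub_norm_le (1 : ℂ) (w * s)
  rw [norm_one] at h2
  linarith

theorem FF_le {x s : ℂ} {η : ℝ} (hη : 0 < η) (hx : x.im ≤ 0) (hs : ‖s‖ ≤ 1 - η) (a : ℝ) :
    ‖FF x s a‖ ≤ 1 / η := by
  have hX : S_CX := Al.cx
  have h1 := (hX.1 x a hx).1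
  have h2 := one_sub_ge h1 hs
  unfold FF
  rw [norm_div]
  gcongr

/-- integral against the law of a level plus an independent variable -/
theorem conv_int (ψ : C(UnitAddCircle, ℝ)) (R : ℝ) (ρ : Measure ℝ) [IsProbabilityMeasure ρ]
    {f : ℝ → ℂ} (hf : Measurable f) {F : ℝ} (hF : ∀ a, ‖f a‖ ≤ F) :
    ∫ a, f a ∂((lev ψ R).conv ρ) =
      ∫ b, (∫ φ in Set.Ioc (0 : ℝ) 1, f (R * ψ (φ : UnitAddCircle) + b)) ∂ρ := by
  have := StepL.prob_lev ψ R
  have hf2 : Measurable fun p : ℝ × ℝ => f (p.1 + p.2) := hf.comp (by fun_prop)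
  have hi : Integrable (fun p : ℝ × ℝ => f (p.1 + p.2)) ((lev ψ R).prod ρ) :=
    Integrable.of_bound hf2.aestronglyMeasurable F (ae_of_all _ fun p => hF _)
  rw [Measure.conv, integral_map (by fun_prop) hf.aestronglyMeasurable,
    integral_prod_symm _ hi]
  refine integral_congr_ae (ae_of_all _ fun b => ?_)
  simp only
  unfold lev
  rw [integral_map (StepL.meas_lev ψ R).aemeasurable]
  exact (hf.comp (by fun_prop : Measurable fun a : ℝ => a + b)).aestronglyMeasurable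

theorem ct_meas : Measurable ct := by
  unfold ct
  fun_prop

/-- comparison with the Cauchy law -/
theorem cmp {ψ : C(UnitAddCircle, ℝ)} {R γ τ F : ℝ} (hτ : 0 < τ) (hτ1 : τ ≤ 1 / 2)
    (h : ∀ φ : ℝ, τ / 2 ≤ φ → φ ≤ 1 - τ / 2 → R * ψ (φ : UnitAddCircle) = γ * ct φ)
    {f : ℝ → ℂ} (hf : Measurable f) (hF : ∀ a, ‖f a‖ ≤ F) :
    ‖(∫ φ in Set.Ioc (0 : ℝ) 1, f (R * ψ (φ : UnitAddCircle))) -
      ∫ φ in Set.Ioc (0 : ℝ) 1, f (γ * ct φ)‖ ≤ 2 * τ * F := by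
  have hP := StepL.prob_Ioc
  have hF0 : 0 ≤ F := (norm_nonneg _).trans (hF 0)
  have m1 : Measurable fun φ : ℝ => f (R * ψ (φ : UnitAddCircle)) := hf.comp (StepL.meas_lev ψ R)
  have m2 : Measurable fun φ : ℝ => f (γ * ct φ) := hf.comp (measurable_const.mul ct_meas)
  have i1 : Integrable (fun φ : ℝ => f (R * ψ (φ : UnitAddCircle)))
      (volume.restrict (Set.Ioc (0 : ℝ) 1)) :=
    Integrable.of_bound m1.aestronglyMeasurable F (ae_of_all _ fun _ => hF _)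
  have i2 : Integrable (fun φ : ℝ => f (γ * ct φ)) (volume.restrict (Set.Ioc (0 : ℝ) 1)) :=
    Integrable.of_bound m2.aestronglyMeasurable F (ae_of_all _ fun _ => hF _)
  rw [← integral_sub i1 i2]
  have hb : ∀ φ : ℝ, φ ∈ Set.Ioc (0 : ℝ) 1 →
      ‖f (R * ψ (φ : UnitAddCircle)) - f (γ * ct φ)‖ ≤
        (Set.Ioo (0 : ℝ) (τ / 2) ∪ Set.Ioc (1 - τ / 2) 1).indicator (fun _ => 2 * F) φ := by
    intro φ hφ
    by_cases hm : φ ∈ Set.Ioo (0 : ℝ) (τ / 2) ∪ Set.Ioc (1 - τ / 2) 1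
    · rw [Set.indicator_of_mem hm]
      refine (norm_sub_le _ _).trans ?_
      have := hF (R * ψ (φ : UnitAddCircle))
      have := hF (γ * ct φ)
      linarith
    · rw [Set.indicator_of_notMem hm]
      have h1 : τ / 2 ≤ φ := by
        by_contra hlt
        exact hm (Or.inl ⟨hφ.1, not_le.1 hlt⟩)
      have h2 : φ ≤ 1 - τ / 2 := by
        by_contra hlt
        exact hm (Or.inr ⟨not_le.1 hlt, hφ.2⟩)
      rw [h φ h1 h2, sub_self, norm_zero]
  have hS : MeasurableSet (Set.Ioo (0 : ℝ) (τ / 2) ∪ Set.Ioc (1 - τ / 2) 1) :=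
    measurableSet_Ioo.union measurableSet_Ioc
  calc ‖∫ φ in Set.Ioc (0 : ℝ) 1, (f (R * ψ (φ : UnitAddCircle)) - f (γ * ct φ))‖
      ≤ ∫ φ in Set.Ioc (0 : ℝ) 1,
        (Set.Ioo (0 : ℝ) (τ / 2) ∪ Set.Ioc (1 - τ / 2) 1).indicator (fun _ => 2 * F) φ := by
        refine norm_integral_le_of_norm_le ?_ ?_
        · exact (integrable_const _).indicator hS
        · filter_upwards [ae_restrict_mem measurableSet_Ioc] with φ hφ
          exact hb φ hφ
    _ ≤ ∫ φ, (Set.Ioo (0 : ℝ) (τ / 2) ∪ Set.Ioc (1 - τ / 2) 1).indicator (fun _ => 2 * F) φ := by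
        refine setIntegral_le_integral ?_ (ae_of_all _ fun φ => ?_)
        · rw [integrable_indicator_iff hS]
          refine integrableOn_const ?_
          have : volume (Set.Ioo (0 : ℝ) (τ / 2) ∪ Set.Ioc (1 - τ / 2) 1) ≤
              volume (Set.Icc (0 : ℝ) 1) := by
            refine measure_mono ?_
            rintro φ (hφ | hφ)
            · exact ⟨hφ.1.le, by linarith [hφ.2]⟩
            · exact ⟨by linarith [hφ.1], hφ.2⟩
          exact (this.trans_lt (by simp)).ne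
        · exact Set.indicator_nonneg (fun _ _ => by positivity) φ
    _ = volume.real (Set.Ioo (0 : ℝ) (τ / 2) ∪ Set.Ioc (1 - τ / 2) 1) * (2 * F) := by
        rw [integral_indicator hS, setIntegral_const, smul_eq_mul]
    _ ≤ τ * (2 * F) := by
        refine mul_le_mul_of_nonneg_right ?_ (by positivity)
        refine (measureReal_union_le _ _).trans ?_
        rw [Real.volume_real_Ioo_of_le (by linarith), Real.volume_real_Ioc_of_le (by linarith)]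
        linarith
    _ = 2 * τ * F := by ring

/-- closeness of the averages -/
theorem Bs_close (hC : S_CIRC) {ψ : C(UnitAddCircle, ℝ)} {R γ τ η : ℝ} (hγ : 0 < γ) (hτ : 0 < τ)
    (hτ1 : τ ≤ 1 / 2) (hη : 0 < η)
    (h : ∀ φ : ℝ, τ / 2 ≤ φ → φ ≤ 1 - τ / 2 → R * ψ (φ : UnitAddCircle) = γ * ct φ)
    (ρ : Measure ℝ) [IsProbabilityMeasure ρ] {x s : ℂ} (hx : x.im < 0) (hs : ‖s‖ ≤ 1 - η) :
    ‖Bs ((lev ψ R).conv ρ) (cayx x) s - Bs ρ (cayx (x - γ * Complex.I)) s‖ ≤ 2 * τ / η := by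
  have hs1 : ‖s‖ < 1 := by linarith
  have hx1 : (x - γ * Complex.I).im ≤ 0 := by
    simp
    linarith
  have e1 : Bs ((lev ψ R).conv ρ) (cayx x) s =
      ∫ b, (∫ φ in Set.Ioc (0 : ℝ) 1, FF (x + b) s (R * ψ (φ : UnitAddCircle))) ∂ρ := by
    change ∫ a, FF x s a ∂((lev ψ R).conv ρ) = _
    rw [conv_int ψ R ρ (FF_meas x s) (FF_le hη hx.le hs)]
    simp only [FF_add]
  have e2 : Bs ρ (cayx (x - γ * Complex.I)) s =
      ∫ b, (∫ φ in Set.Ioc (0 : ℝ) 1, FF (x + b) s (γ * ct φ)) ∂ρ := by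
    change ∫ b, FF (x - γ * Complex.I) s b ∂ρ = _
    refine integral_congr_ae (ae_of_all _ fun b => ?_)
    simp only
    have hxb : (x + (b : ℂ)).im < 0 := by simpa using hx
    have h1 := hC γ (x + b) s hγ hxb hs1
    unfold FF
    rw [h1, ← cayx_shift]
  have hb : ∀ b : ℝ, ‖(∫ φ in Set.Ioc (0 : ℝ) 1, FF (x + b) s (R * ψ (φ : UnitAddCircle))) -
      ∫ φ in Set.Ioc (0 : ℝ) 1, FF (x + b) s (γ * ct φ)‖ ≤ 2 * τ / η := by
    intro b
    have hxb : (x + (b : ℂ)).im ≤ 0 := by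
      have : (x + (b : ℂ)).im = x.im := by simp
      rw [this]
      exact hx.le
    refine (cmp hτ hτ1 h (FF_meas (x + b) s) (FF_le hη hxb hs)).trans (le_of_eq ?_)
    ring
  have hP := StepL.prob_Ioc
  have mm : ∀ g : ℝ → ℝ, Measurable g → Integrable (fun b : ℝ =>
      ∫ φ in Set.Ioc (0 : ℝ) 1, FF (x + b) s (g φ)) ρ := by
    intro g hg
    have h2 : Measurable fun p : ℝ × ℝ => FF (x + p.1) s (g p.2) := by
      have h3 : (fun p : ℝ × ℝ => FF (x + p.1) s (g p.2)) =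
          fun p : ℝ × ℝ => FF x s (g p.2 + p.1) := by
        funext p
        rw [FF_add]
      rw [h3]
      exact (FF_meas x s).comp ((hg.comp measurable_snd).add measurable_fst)
    have h4 : StronglyMeasurable fun b : ℝ => ∫ φ in Set.Ioc (0 : ℝ) 1, FF (x + b) s (g φ) :=
      h2.stronglyMeasurable.integral_prod_right'
    refine Integrable.of_bound h4.aestronglyMeasurable (1 / η) (ae_of_all _ fun b => ?_)
    have hxb : (x + (b : ℂ)).im ≤ 0 := by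
      have : (x + (b : ℂ)).im = x.im := by simp
      rw [this]
      exact hx.le
    refine (norm_integral_le_of_norm_le_const (C := 1 / η)
      (ae_of_all _ fun φ => FF_le hη hxb hs _)).trans ?_
    simp
  rw [e1, e2, ← integral_sub (mm _ (StepL.meas_lev ψ R)) (mm (fun φ => γ * ct φ) (measurable_const.mul ct_meas))]
  refine (norm_integral_le_of_norm_le_const (C := 2 * τ / η) (ae_of_all _ fun b => hb b)).trans ?_
  simp

/-- the uniform absorption for given parameters -/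
theorem absorb (hC : S_CIRC) {ψ : C(UnitAddCircle, ℝ)} {R γ τ η D1 : ℝ} (hγ : 0 < γ) (hγ1 : γ ≤ 1)
    (hτ : 0 < τ) (hτ1 : τ ≤ 1 / 2) (hη : 0 < η) (hδ : 2 * τ / η ≤ 1 / 4)
    (h : ∀ φ : ℝ, τ / 2 ≤ φ → φ ≤ 1 - τ / 2 → R * ψ (φ : UnitAddCircle) = γ * ct φ)
    (ρ : Measure ℝ) [IsProbabilityMeasure ρ] (hρ : ρ (Set.Icc (-1) 1)ᶜ = 0) {x s : ℂ}
    (hxD : ‖x‖ + 1 ≤ D1) (hx : x.im < 0) (hs : ‖s‖ ≤ 1 - η) :
    ‖Us ((lev ψ R).conv ρ) (cayx x) s‖ ≤ 1 - 2 / (D1 + 2) ^ 2 * γ + 16 * τ / η := by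
  obtain ⟨q, hq⟩ : ∃ q, q = 1 - 2 / (D1 + 2) ^ 2 * γ := ⟨_, rfl⟩
  have hD0 : 0 ≤ D1 := by
    have := norm_nonneg x
    linarith
  have hE : 0 < (D1 + 2) ^ 2 := by positivity
  have hq0 : 0 ≤ q := by
    rw [hq, sub_nonneg, div_mul_eq_mul_div, div_le_one hE]
    nlinarith
  have hq1 : q < 1 := by
    rw [hq]
    have : 0 < 2 / (D1 + 2) ^ 2 * γ := by positivity
    linarith
  have hw : ∀ᵐ b ∂ρ, ‖cayx (x - γ * Complex.I) b‖ ≤ q := by
    have hae : ∀ᵐ b ∂ρ, b ∈ Set.Icc (-1 : ℝ) 1 := by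
      rw [ae_iff]
      exact hρ
    filter_upwards [hae] with b hb
    rw [← cayx_shift, hq]
    refine cay_abs ?_ ?_ hγ hγ1
    · calc ‖x + (b : ℂ)‖ ≤ ‖x‖ + ‖(b : ℂ)‖ := norm_add_le _ _
        _ ≤ ‖x‖ + 1 := by
          rw [Complex.norm_real, Real.norm_eq_abs]
          have := abs_le.2 ⟨hb.1, hb.2⟩
          linarith
        _ ≤ D1 := hxD
    · have : (x + (b : ℂ)).im = x.im := by simp
      rw [this]
      exact hx.le
  have hs1 : ‖s‖ ≤ 1 := by linarith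
  have hqs : q * ‖s‖ < 1 := by
    calc q * ‖s‖ ≤ q * 1 := by gcongr
      _ < 1 := by linarith
  have hmw : Measurable (cayx (x - γ * Complex.I)) := by
    unfold cayx
    fun_prop
  obtain ⟨-, a2, a3, a4, a5⟩ := Al.sc1 ρ (cayx (x - γ * Complex.I)) q s hmw hq0 hq1.le hw hs1 hqs
  have hcl := Bs_close hC hγ hτ hτ1 hη h ρ hx hs
  obtain ⟨B, hB⟩ : ∃ B, B = Bs ((lev ψ R).conv ρ) (cayx x) s := ⟨_, rfl⟩
  obtain ⟨B', hB'⟩ : ∃ B', B' = Bs ρ (cayx (x - γ * Complex.I)) s := ⟨_, rfl⟩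
  obtain ⟨U', hU'⟩ : ∃ U', U' = Us ρ (cayx (x - γ * Complex.I)) s := ⟨_, rfl⟩
  rw [← hB, ← hB'] at hcl
  rw [← hU', ← hB'] at a5
  rw [← hU'] at a3 a4
  rw [← hB'] at a2
  have e1 : (1 + s * B') * (1 - U' * s) = 1 := by
    have h1 : U' / (1 - U' * s) * (1 - U' * s) = U' := div_mul_cancel₀ _ a4
    rw [a5] at h1
    linear_combination s * h1
  have e2 : (1 : ℝ) / 2 ≤ ‖1 + s * B'‖ := by
    have h1 : ‖1 + s * B'‖ * ‖1 - U' * s‖ = 1 := by rw [← norm_mul, e1, norm_one]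
    have h2 : ‖1 - U' * s‖ ≤ 2 := by
      calc ‖1 - U' * s‖ ≤ ‖(1 : ℂ)‖ + ‖U' * s‖ := norm_sub_le _ _
        _ ≤ 1 + 1 * 1 := by
          rw [norm_one, norm_mul]
          gcongr
          linarith
        _ = 2 := by norm_num
    have h3 := norm_nonneg (1 + s * B')
    nlinarith [norm_nonneg (1 - U' * s)]
  have e3 : (1 : ℝ) / 4 ≤ ‖1 + s * B‖ := by
    have h1 : ‖(1 + s * B') - (1 + s * B)‖ ≤ 1 / 4 := by
      have : (1 + s * B') - (1 + s * B) = -(s * (B - B')) := by ring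
      rw [this, norm_neg, norm_mul]
      calc ‖s‖ * ‖B - B'‖ ≤ 1 * (1 / 4) := by
            refine mul_le_mul hs1 (hcl.trans hδ) (norm_nonneg _) zero_le_one
        _ = 1 / 4 := by norm_num
    have h2 := norm_sub_norm_le (1 + s * B') (1 + s * B)
    linarith
  have n1 : 1 + s * B ≠ 0 := by
    intro h0
    rw [h0, norm_zero] at e3
    norm_num at e3
  have e4 : Us ((lev ψ R).conv ρ) (cayx x) s - U' = (B - B') / ((1 + s * B) * (1 + s * B')) := by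
    have : U' = B' / (1 + s * B') := by
      rw [hU', hB']
      rfl
    rw [this]
    unfold Us
    rw [← hB, div_sub_div _ _ n1 a2]
    congr 1
    ring
  have e5 : ‖Us ((lev ψ R).conv ρ) (cayx x) s - U'‖ ≤ 16 * τ / η := by
    rw [e4, norm_div, norm_mul]
    have h1 : (1 : ℝ) / 8 ≤ ‖1 + s * B‖ * ‖1 + s * B'‖ := by nlinarith [norm_nonneg (1 + s * B)]
    have h2 : 0 < ‖1 + s * B‖ * ‖1 + s * B'‖ := by linarith
    rw [div_le_iff₀ h2]
    have h3 : 0 ≤ 16 * τ / η := by positivity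
    calc ‖B - B'‖ ≤ 2 * τ / η := hcl
      _ = 16 * τ / η * (1 / 8) := by ring
      _ ≤ _ := by gcongr
  calc ‖Us ((lev ψ R).conv ρ) (cayx x) s‖ = ‖U' + (Us ((lev ψ R).conv ρ) (cayx x) s - U')‖ := by
        congr 1
        ring
    _ ≤ ‖U'‖ + ‖Us ((lev ψ R).conv ρ) (cayx x) s - U'‖ := norm_add_le _ _
    _ ≤ q + 16 * τ / η := add_le_add a3 e5
    _ = _ := by rw [hq]

end Lv5

end

end Pool.Agent.Y663.W5
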